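import Pool.Agent.H.MP_a83649_an.D

namespace Pool.Agent.H.MP_a83649_an

open Finset Real Filter Topology Complex

/-- coordinates of the image of the first basis vector -/
noncomputable def co (μ : ℕ → ℂ) (j : ℕ) : ℂ :=
  μ (j + 1) * d (j + 1) - ∑ i ∈ range (j + 1), μ i * d i * K 1 (j - i)

lemma K_pos : 0 < K 1 0 := by rw [← zero_add 1, K_right]; exact d_pos _

lemma co_ge (μ : ℕ → ℂ) (j : ℕ) {η : ℂ} (hη : ‖η‖ ≤ 1)
    (h : ∀ i ≤ j, 0 ≤ (η * (μ (j + 1) - μ i)).re) :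
    K 1 0 * (η * (μ (j + 1) - μ j)).re * d j ≤ ‖co μ j‖ := by
  have h1 : η * co μ j =
      ∑ i ∈ range (j + 1), (d i * K 1 (j - i) : ℝ) * (η * (μ (j + 1) - μ i)) := by
    rw [co, d_conv]
    push_cast
    rw [mul_sum, ← sum_sub_distrib, mul_sum]
    exact sum_congr rfl fun i _ => by ring
  have h2 := single_le_sum (f := fun i => d i * K 1 (j - i) * (η * (μ (j + 1) - μ i)).re)
    (fun i hi => mul_nonneg (mul_nonneg (d_pos i).le (K_nonneg _ _))
      (h i (Nat.lt_succ_iff.1 (mem_range.1 hi)))) (self_mem_range_succ j)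
  calc _ = d j * K 1 (j - j) * (η * (μ (j + 1) - μ j)).re := by rw [Nat.sub_self]; ring
    _ ≤ (η * co μ j).re := by rw [h1, re_sum]; simpa only [re_ofReal_mul] using h2
    _ ≤ _ := (re_le_norm _).trans (by rw [norm_mul]; exact mul_le_of_le_one_left (norm_nonneg _) hη)

lemma sum_le_norm (x : LP) (N : ℕ) :
    ∑ j ∈ range N, ‖x (j + 1)‖ ^ (5 / 4 : ℝ) ≤ ‖x‖ ^ (5 / 4 : ℝ) := by
  have := lp.sum_rpow_le_norm_rpow P_pos x (range (N + 1))
  rw [sum_range_succ', P_toReal] at this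
  exact (le_add_of_nonneg_right (by positivity)).trans this

lemma norm_e : ‖e 0‖ = 1 := by
  rw [e, lp.norm_single (by simp [P])]; simp

lemma Mult.sum_co {T : LP →L[ℂ] LP} {μ : ℕ → ℂ} (hT : Mult T μ) {M : ℝ} (hM : ‖T‖ ≤ M) (N : ℕ) :
    ∑ j ∈ range N, ‖co μ j‖ ^ (5 / 4 : ℝ) ≤ M ^ (5 / 4 : ℝ) := by
  have h1 := T.le_opNorm (e 0)
  rw [norm_e, mul_one] at h1
  refine le_of_eq_of_le ?_ ((sum_le_norm (T (e 0)) N).trans
    (rpow_le_rpow (norm_nonneg _) (h1.trans hM) (by norm_num)))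
  simp only [hT.coord, co]

lemma grow {κ : ℝ} (hκ : 0 < κ) (M : ℝ) : ∃ n : ℕ, 1 ≤ n ∧
    M * (n : ℝ) ^ (5 / 8 : ℝ) < ∑ j ∈ range n, (κ * d j) ^ (5 / 4 : ℝ) := by
  have h1 := ((tendsto_rpow_atTop (show (0 : ℝ) < 1 / 16 by norm_num)).comp
    tendsto_natCast_atTop_atTop).const_mul_atTop
    (show 0 < (κ * (3 / 4)) ^ (5 / 4 : ℝ) by positivity)
  obtain ⟨n, h2, h3⟩ := ((h1.eventually_gt_atTop M).and (eventually_ge_atTop 1)).exists
  have hn : (0 : ℝ) < n := by exact_mod_cast h3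
  refine ⟨n, h3, (mul_lt_mul_of_pos_right h2 (by positivity)).trans_le ?_⟩
  have h4 := card_nsmul_le_sum (range n) (fun j => (κ * d j) ^ (5 / 4 : ℝ))
    ((κ * (3 / 4) * (n : ℝ) ^ (-(1 / 4) : ℝ)) ^ (5 / 4 : ℝ)) fun j hj => by
      refine rpow_le_rpow (by positivity) ?_ (by norm_num)
      rw [mul_assoc]
      refine mul_le_mul_of_nonneg_left (le_trans ?_ (w_ge (by norm_num) (by norm_num) j)) hκ.le
      exact mul_le_mul (by norm_num) (rpow_le_rpow_of_nonpos (by positivity)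
        (by exact_mod_cast mem_range.1 hj) (by norm_num)) (by positivity) (by norm_num)
  refine le_of_eq_of_le ?_ h4
  rw [card_range, nsmul_eq_mul, mul_rpow (x := κ * (3 / 4)) (by positivity) (by positivity),
    ← rpow_mul hn.le, Function.comp, mul_assoc, ← rpow_add hn, mul_left_comm,
    ← rpow_one_add' hn.le (by norm_num)]
  norm_num

lemma unb (M : ℝ) : ∃ N, M < ∑ j ∈ range N, ‖co (fun k => (lam k : ℂ) ^ I) j‖ ^ (5 / 4 : ℝ) := by
  have h0 : 0 < 1 - Real.cos (Real.log 2) := by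
    have := cos_lt_cos_of_nonneg_of_le_pi le_rfl
      (show Real.log 2 ≤ π by linarith [log_two_lt_d9, pi_gt_three]) (log_pos one_lt_two)
    rw [Real.cos_zero] at this
    linarith
  obtain ⟨n, h1, h2⟩ := grow (mul_pos K_pos h0) |M|
  refine ⟨n, lt_of_le_of_lt ((le_abs_self M).trans (le_mul_of_one_le_right (abs_nonneg M)
    (one_le_rpow (by exact_mod_cast h1) (by norm_num)))) (h2.trans_le (sum_le_sum fun j _ =>
      rpow_le_rpow (mul_pos (mul_pos K_pos h0) (d_pos j)).le ?_ (by norm_num)))⟩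
  have h3 : ∀ i, (cexp ((-Real.log (lam (j + 1)) : ℝ) * I) *
      ((lam (j + 1) : ℂ) ^ I - (lam i : ℂ) ^ I)).re =
      1 - Real.cos (Real.log (lam i) - Real.log (lam (j + 1))) := fun i => by
    rw [cpow_def_of_ne_zero (ofReal_ne_zero.2 (lam_pos _).ne'),
      cpow_def_of_ne_zero (ofReal_ne_zero.2 (lam_pos _).ne'), ← ofReal_log (lam_pos _).le,
      ← ofReal_log (lam_pos _).le, mul_sub, ← Complex.exp_add, ← Complex.exp_add, ← add_mul,
      ← add_mul, ← ofReal_add, ← ofReal_add, sub_re, exp_ofReal_mul_I_re, exp_ofReal_mul_I_re,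
      neg_add_cancel, Real.cos_zero, neg_add_eq_sub]
  have h4 := co_ge (fun k => (lam k : ℂ) ^ I) j (norm_exp_ofReal_mul_I _).le fun i _ =>
    (sub_nonneg.2 (Real.cos_le_one _)).trans_eq (h3 i).symm
  rwa [h3, lam_succ, Real.log_div (lam_pos j).ne' two_ne_zero, sub_sub_cancel] at h4

lemma ip_le {z : ℂ} (hz : z ≠ 0) : ‖z ^ I‖ ≤ rexp π := by
  rw [norm_cpow_of_ne_zero hz, I_re, I_im, Real.rpow_zero, mul_one, one_div, ← Real.exp_neg]
  exact Real.exp_le_exp.2 (neg_le.1 (neg_pi_lt_arg z).le)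

lemma Cl.ip {σ : ℝ} {f : ℂ → ℂ} (h : Cl σ f) (hσ : σ < π) : Cl σ fun z => z ^ I * f z :=
  h.mul (fun z hz => (differentiableAt_id.cpow_const (mem_slitPlane_iff_arg.2
    ⟨((le_abs_self _).trans_lt (hz.2.trans hσ)).ne, hz.1⟩)).differentiableWithinAt)
    (fun _ hz => ip_le hz.1) (Real.exp_pos _).le

lemma not_bip : ¬ BIP Aop := by
  rintro ⟨ω, θ, h0, h1, h2, -, B, C, hB, -⟩
  have h3 : reg = rho 1 1 := funext fun z => by simp only [reg, rho, ofReal_one]; ring
  have h4 : Cl ((θ + π) / 2) reg :=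
    h3 ▸ rho_cl (by linarith) (by linarith) one_pos one_pos
  have h5 := fc_mult h4 (by linarith) (h0.trans h1) (by linarith)
  have h6 := fc_mult (h4.ip (by linarith)) (by linarith) (h0.trans h1) (by linarith)
  have h7 := hB 1
  rw [IsPow, ofReal_one, one_mul] at h7
  have h8 : Mult (B 1) fun k => (lam k : ℂ) ^ I := fun j x => by
    have h9 := h6 j x
    rw [← h7, ContinuousLinearMap.mul_apply, h5] at h9
    beta_reduce at h9
    rw [mul_comm (_ ^ I), mul_assoc] at h9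
    refine mul_left_cancel₀ (div_ne_zero (ofReal_ne_zero.2 (lam_pos j).ne') (pow_ne_zero 2 ?_)) h9
    exact_mod_cast (add_pos one_pos (lam_pos j)).ne'
  obtain ⟨N, hN⟩ := unb (‖B 1‖ ^ (5 / 4 : ℝ))
  exact hN.not_ge (h8.sum_co le_rfl N)

lemma not_hinf : ¬ HInf Aop := by
  rintro ⟨ω, θ, σ, C, h0, h1, h2, h3, -, h⟩
  have hσ := (h0.trans h1).trans h2
  obtain ⟨C', hC', h4⟩ := rho_le hσ h3
  have h5 := Mult.one.sub (A_mult.smul (-1))
  obtain ⟨N, hN⟩ := unb ((C * (rexp π * C') * ‖1 - (-1 : ℂ) • Aop‖) ^ (5 / 4 : ℝ))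
  have h6 : ∀ k, Tendsto (fun a : ℝ => (lam k : ℂ) ^ I * rho a 1 (lam k) * (1 - -1 * lam k))
      (𝓝[>] 0) (𝓝 ((lam k : ℂ) ^ I)) := fun k => by
    have h7 : (lam k : ℂ) ≠ 0 := ofReal_ne_zero.2 (lam_pos k).ne'
    have h8 : (lam k + 1 : ℂ) ≠ 0 := by exact_mod_cast (add_pos (lam_pos k) one_pos).ne'
    have h9 : ContinuousAt
        (fun a : ℝ => (lam k : ℂ) ^ I * rho a 1 (lam k) * (1 - -1 * lam k)) 0 := by
      unfold rho
      fun_prop (disch := simp [h7, h8])
    convert h9.tendsto.mono_left nhdsWithin_le_nhds using 2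
    simp only [rho, ofReal_zero, ofReal_one, add_zero]
    field_simp
    ring
  refine hN.not_ge (le_of_tendsto (tendsto_finset_sum _ fun j _ => (Tendsto.norm
    (((h6 (j + 1)).mul_const (d (j + 1) : ℂ)).sub (tendsto_finset_sum (range (j + 1)) fun i _ =>
      ((h6 i).mul_const (d i : ℂ)).mul_const (K 1 (j - i) : ℂ)))).rpow_const
      (Or.inr (by norm_num))) ?_)
  filter_upwards [self_mem_nhdsWithin] with a (ha : 0 < a)
  have h7 := (rho_cl hσ h3 ha one_pos).ip h3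
  refine ((fc_mult h7 h3 (h0.trans h1) h2).mul h5).sum_co ((norm_mul_le _ _).trans
    (mul_le_mul_of_nonneg_right (h _ _ h7.h0 fun z hz => ?_) (norm_nonneg _))) N
  rw [norm_mul]
  refine mul_le_mul (ip_le hz.1) ((h4 a 1 ha one_pos z hz).2.trans (mul_le_of_le_one_right hC'
    (div_le_one_of_le₀ ?_ (by positivity)))) (norm_nonneg _) (Real.exp_pos _).le
  nlinarith [norm_nonneg z]

/-- flipping one sign -/
def flip {n : ℕ} (m : Fin n) : (Fin n → Bool) ≃ (Fin n → Bool) :=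
  Function.Involutive.toPerm (fun ε => Function.update ε m (!ε m)) fun ε => by simp

lemma flip_sum {E : Type} [AddCommGroup E] {n : ℕ} (m : Fin n) (ε : Fin n → Bool) (y : Fin n → E) :
    ∑ k, (if ε k then y k else -y k) - ∑ k, (if flip m ε k then y k else -y k) =
      (if ε m then y m else -y m) + (if ε m then y m else -y m) := by
  rw [← sum_sub_distrib, sum_eq_single m]
  · cases h : ε m <;> simp [flip, h, sub_eq_add_neg]
  · intro k _ hk
    simp [flip, Function.update_of_ne hk]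
  · simp

lemma rad_low {n : ℕ} (m : Fin n) (y : Fin n → ℂ) : 2 ^ n * ‖y m‖ ^ (5 / 4 : ℝ) ≤
    2 * ∑ ε : Fin n → Bool, ‖∑ k, (if ε k then y k else -y k)‖ ^ (5 / 4 : ℝ) := by
  rw [two_mul]
  nth_rewrite 2 [← (flip m).sum_comp]
  rw [← sum_add_distrib]
  refine le_of_eq_of_le (by simp) (card_nsmul_le_sum _ _ (‖y m‖ ^ (5 / 4 : ℝ)) fun ε _ => ?_)
  have h1 := norm_sub_le (∑ k, (if ε k then y k else -y k)) (∑ k, (if flip m ε k then y k else -y k))
  rw [flip_sum, ← two_mul, norm_mul, show ‖if ε m then y m else -y m‖ = ‖y m‖ by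
    split_ifs <;> simp, Complex.norm_two] at h1
  rcases le_total ‖y m‖ ‖∑ k, (if ε k then y k else -y k)‖ with h | h
  · exact (rpow_le_rpow (norm_nonneg _) h (by norm_num)).trans
      (le_add_of_nonneg_right (by positivity))
  · exact (rpow_le_rpow (norm_nonneg _) (by linarith) (by norm_num)).trans
      (le_add_of_nonneg_left (by positivity))

lemma rad_const (n : ℕ) : rad (fun _ : Fin n => e 0) = 2 ^ n * n := by
  have h1 : ∀ ε : Fin n → Bool, ‖∑ k, (if ε k then e 0 else -e 0)‖ ^ 2 =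
      ∑ k, ∑ l, (if ε k then 1 else -1 : ℝ) * (if ε l then 1 else -1) := fun ε => by
    have : ∑ k, (if ε k then e 0 else -e 0) = (∑ k, (if ε k then 1 else -1 : ℝ)) • e 0 := by
      rw [sum_smul]
      exact sum_congr rfl fun k _ => by split_ifs <;> simp
    rw [this, norm_smul, norm_e, mul_one, Real.norm_eq_abs, sq_abs, sq, sum_mul_sum]
  have h2 : ∀ k : Fin n, ∑ ε : Fin n → Bool, ∑ l, (if ε k then 1 else -1 : ℝ) *
      (if ε l then 1 else -1) = 2 ^ n := fun k => by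
    rw [sum_comm, sum_eq_single k]
    · rw [sum_congr rfl fun ε _ => show _ = (1 : ℝ) by split_ifs <;> simp]
      simp
    · intro l _ hl
      have h3 := (flip k).sum_comp fun ε => (if ε k then 1 else -1 : ℝ) * (if ε l then 1 else -1)
      have h4 : ∀ ε, (if flip k ε k then 1 else -1 : ℝ) * (if flip k ε l then 1 else -1) =
          -((if ε k then 1 else -1 : ℝ) * (if ε l then 1 else -1)) := fun ε => by
        cases h : ε k <;> cases h' : ε l <;> simp [flip, h, h', Function.update_of_ne hl]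
      simp only [h4, sum_neg_distrib] at h3
      linarith
    · simp
  rw [rad, sum_congr rfl fun ε _ => h1 ε, sum_comm, sum_congr rfl fun k _ => h2 k]
  simp [mul_comm]

lemma pow_split {x n : ℝ} (hx : 0 ≤ x) (hn : 0 < n) :
    x ^ (5 / 4 : ℝ) ≤ n ^ (5 / 8 : ℝ) + n ^ (-(3 / 8) : ℝ) * x ^ 2 := by
  rcases le_total x (n ^ (1 / 2 : ℝ)) with h | h
  · refine ((rpow_le_rpow hx h (by norm_num)).trans_eq ?_).trans
      (le_add_of_nonneg_right (by positivity))
    rw [← rpow_mul hn.le]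
    norm_num
  · have h1 := rpow_le_rpow_of_nonpos (by positivity) h (show (-(3 / 4) : ℝ) ≤ 0 by norm_num)
    rw [← rpow_mul hn.le, show (1 / 2 * -(3 / 4) : ℝ) = -(3 / 8) by norm_num] at h1
    refine le_trans (le_of_eq_of_le ?_ (mul_le_mul_of_nonneg_right h1 (sq_nonneg x)))
      (le_add_of_nonneg_left (by positivity))
    rw [← rpow_two, ← rpow_add' hx (by norm_num)]
    norm_num

lemma not_rsec : ¬ RSec Aop := by
  rintro ⟨ω, h0, h1, C, h⟩
  obtain ⟨δ, hδ, h2⟩ := sep_in h0 h1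
  have h3 : ∀ k, (-lam k : ℂ) ∉ closure (sec ω) := fun k hk => by
    have := closure_minimal (t := {z : ℂ | δ * (‖z‖ + lam k) ≤ ‖z + lam k‖})
      (fun z hz => h2 z hz _ (lam_pos k).le) (isClosed_le (by fun_prop) (by fun_prop)) hk
    have h4 := lam_pos k
    rw [Set.mem_setOf_eq, neg_add_cancel, norm_zero] at this
    exact this.not_gt (by positivity)
  obtain ⟨δ', hδ', h4⟩ := sep_out h0
  have h5 := fun k => (res_mult (out_of h0 (h3 k)).1 hδ' (h4 _ (out_of h0 (h3 k)).2)).2.1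
  have h6 : ∀ j, K 1 0 * (1 / 6) * d j ≤ ‖zR Aop (-lam (j + 1)) (e 0) (j + 1)‖ := fun j => by
    have h7 : ∀ i, (1 * ((-lam (j + 1) : ℂ) / (-lam (j + 1) - lam (j + 1)) -
        -lam (j + 1) / (-lam (j + 1) - lam i))).re =
        1 / 2 - lam (j + 1) / (lam (j + 1) + lam i) := fun i => by
      have := lam_pos (j + 1)
      rw [one_mul, ← neg_add', ← neg_add', neg_div_neg_eq, neg_div_neg_eq]
      norm_cast
      field_simp
      ring
    have h8 := co_ge (fun k => (-lam (j + 1) : ℂ) / (-lam (j + 1) - lam k)) j norm_one.le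
      fun i hi => by
        have := lam_pos (j + 1)
        have := lam_anti (hi.trans j.le_succ)
        rw [h7, sub_nonneg, div_le_iff₀ (by linarith)]
        linarith
    rw [(h5 _).coord]
    refine le_of_eq_of_le ?_ h8
    have := lam_pos j
    rw [h7, lam_succ]
    field_simp
    ring
  obtain ⟨n, hn, h7⟩ := grow (mul_pos K_pos (show (0 : ℝ) < 1 / 6 by norm_num)) (2 * (1 + C ^ 2))
  have hn' : (0 : ℝ) < n := by exact_mod_cast hn
  have h8 := h n (fun k => zR Aop (-lam (k + 1))) (fun _ => e 0) fun k => ⟨_, h3 _, rfl⟩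
  rw [rad_const, rad] at h8
  set S : (Fin n → Bool) → LP := fun ε =>
    ∑ k, (if ε k then zR Aop (-lam (k + 1)) (e 0) else -zR Aop (-lam (k + 1)) (e 0)) with hS
  have h9 : ∑ ε, ‖S ε‖ ^ (5 / 4 : ℝ) ≤ 2 ^ n * ((1 + C ^ 2) * (n : ℝ) ^ (5 / 8 : ℝ)) := by
    refine (sum_le_sum fun ε _ => pow_split (norm_nonneg _) hn').trans ?_
    rw [sum_add_distrib, ← mul_sum]
    refine (add_le_add_right (mul_le_mul_of_nonneg_left h8 (by positivity)) _).trans_eq ?_
    have : (n : ℝ) ^ (-(3 / 8) : ℝ) * n = (n : ℝ) ^ (5 / 8 : ℝ) := by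
      rw [← rpow_add_one hn'.ne']; norm_num
    simp only [sum_const, card_univ, Fintype.card_fun, Fintype.card_bool, Fintype.card_fin,
      nsmul_eq_mul]
    push_cast
    linear_combination 2 ^ n * C ^ 2 * this
  have h10 : 2 ^ n * ∑ j ∈ range n, (K 1 0 * (1 / 6) * d j) ^ (5 / 4 : ℝ) ≤
      2 * ∑ ε, ‖S ε‖ ^ (5 / 4 : ℝ) := by
    refine le_trans ?_ (mul_le_mul_of_nonneg_left
      (sum_le_sum fun ε _ => sum_le_norm (S ε) n) zero_le_two)
    rw [sum_comm, mul_sum, mul_sum, sum_range, sum_range]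
    refine sum_le_sum fun m _ => (mul_le_mul_of_nonneg_left (rpow_le_rpow
      (mul_pos (mul_pos K_pos (by norm_num)) (d_pos _)).le (h6 m) (by norm_num))
      (by positivity)).trans ((rad_low m fun k => zR Aop (-lam (k + 1)) (e 0) (m + 1)).trans_eq ?_)
    congr 1
    refine sum_congr rfl fun ε _ => ?_
    simp only [hS, lp.coeFn_sum, Finset.sum_apply]
    congr 2
    exact sum_congr rfl fun k _ => by split_ifs <;> rfl
  have h11 : (0 : ℝ) < 2 ^ n := by positivity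
  nlinarith [mul_lt_mul_of_pos_left h7 h11]

theorem main : Bad (fun (x : LP) i => x i) Aop :=
  ⟨A_dense, fun _ => A_sec, fun _ => sg_pos, not_hinf, not_bip, not_rsec⟩

end Pool.Agent.H.MP_a83649_an
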