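import Pool.Agent.H.MP_a83649_an.Defs

namespace Pool.Agent.H.MP_a83649_an

open Finset Real

/-- binomial weights -/
noncomputable def w (β : ℝ) (n : ℕ) : ℝ := ∏ i ∈ range n, (1 - β / (i + 1))

@[simp] lemma w_zero (β : ℝ) : w β 0 = 1 := rfl

lemma w_succ (β : ℝ) (n : ℕ) : w β (n + 1) = w β n * (1 - β / (n + 1)) := prod_range_succ _ _

lemma w_pos {β : ℝ} (h : β < 1) (n : ℕ) : 0 < w β n := prod_pos fun i _ => by
  have : (0 : ℝ) ≤ i := Nat.cast_nonneg i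
  rw [sub_pos, div_lt_one (by linarith)]
  linarith

lemma w_le {β : ℝ} (h0 : 0 ≤ β) (h : β < 1) (n : ℕ) : w β n ≤ (n + 1 : ℝ) ^ (-β) := by
  induction n with
  | zero => simp
  | succ n ih =>
    have hn : (0 : ℝ) < n + 1 := by positivity
    have hx : 0 < 1 / (n + 1 : ℝ) := by positivity
    have h1 := rpow_one_add_le_one_add_mul_self (s := 1 / (n + 1)) (by linarith) h0 h.le
    have h2 : ((n + 1 : ℕ) + 1 : ℝ) = (n + 1) * (1 + 1 / (n + 1)) := by push_cast; field_simp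
    have h3 : 0 < (1 + 1 / (n + 1 : ℝ)) ^ β := by positivity
    have h4 : 1 - β / (n + 1) ≤ (1 + 1 / (n + 1 : ℝ)) ^ (-β) := by
      rw [rpow_neg (by linarith), div_eq_mul_one_div β, ← one_div, le_div_iff₀ h3]
      by_cases h5 : 0 ≤ 1 - β * (1 / (n + 1 : ℝ))
      · nlinarith [mul_le_mul_of_nonneg_left h1 h5, sq_nonneg (β * (1 / (n + 1 : ℝ)))]
      · nlinarith
    rw [w_succ, h2, mul_rpow hn.le (by linarith)]
    exact mul_le_mul ih h4 (by
      have := w_pos h (n + 1)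
      rw [w_succ] at this
      exact ((mul_pos_iff_of_pos_left (w_pos h n)).1 this).le) (by positivity)

lemma w_ge' {β : ℝ} (h0 : 0 ≤ β) (h : β < 1) (n : ℕ) :
    (1 - β) * (n + 1 : ℝ) ^ (-β) ≤ w β (n + 1) := by
  induction n with
  | zero => simp [w_succ]
  | succ n ih =>
    have hn : (0 : ℝ) < n + 2 := by positivity
    have hx : 1 / (n + 2 : ℝ) ≤ 1 := by rw [div_le_one hn]; linarith [Nat.cast_nonneg (α := ℝ) n]
    have h1 := rpow_one_add_le_one_add_mul_self (s := -(1 / (n + 2))) (by linarith) h0 h.le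
    have h2 : (n + 1 : ℝ) = (n + 2) * (1 + -(1 / (n + 2))) := by field_simp; ring
    have h3 : (n + 2 : ℝ) ^ (-β) = (n + 1 : ℝ) ^ (-β) * (1 + -(1 / (n + 2))) ^ β := by
      have : (0 : ℝ) < 1 + -(1 / (n + 2)) := (mul_pos_iff_of_pos_left hn).1 (h2 ▸ by positivity)
      conv_rhs => rw [h2, mul_rpow hn.le this.le, mul_assoc, ← rpow_add this]
      simp
    have h4 : ((n + 1 : ℕ) + 1 : ℝ) = n + 2 := by push_cast; ring
    rw [w_succ, h4, h3, ← mul_assoc]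
    refine mul_le_mul ih (h1.trans_eq (by ring)) (rpow_nonneg (by linarith) _) (w_pos h _).le

lemma w_anti {β : ℝ} (h0 : 0 ≤ β) (h : β < 1) (n : ℕ) : w β (n + 1) ≤ w β n := by
  rw [w_succ]
  exact mul_le_of_le_one_right (w_pos h n).le (sub_le_self _ (by positivity))

lemma w_ge {β : ℝ} (h0 : 0 ≤ β) (h : β < 1) (n : ℕ) : (1 - β) * (n + 1 : ℝ) ^ (-β) ≤ w β n :=
  (w_ge' h0 h n).trans (w_anti h0 h n)

lemma w_sum (β : ℝ) (n : ℕ) : (1 - β) * ∑ y ∈ range n, w β y = n * w β n := by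
  induction n with
  | zero => simp
  | succ n ih =>
    rw [sum_range_succ, mul_add, ih, w_succ]
    push_cast
    field_simp
    ring

lemma w_tail (β : ℝ) (x N : ℕ) :
    β * ∑ i ∈ range N, w β (x + i) / ((x + i : ℕ) + 1) = w β x - w β (x + N) := by
  induction N with
  | zero => simp
  | succ n ih => rw [sum_range_succ, mul_add, ih, ← add_assoc, w_succ]; ring

lemma hil {γ : ℝ} (h0 : 0 < γ) (h : γ < 1) : ∃ C, 0 ≤ C ∧ ∀ x N : ℕ,
    ∑ y ∈ range N, (y + 1 : ℝ) ^ (-γ) / (x + y + 2) ≤ C * (x + 1 : ℝ) ^ (-γ) := by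
  have h1 : 0 < 1 - γ := by linarith
  refine ⟨(1 - γ)⁻¹ * ((1 - γ)⁻¹ + γ⁻¹), by positivity, fun x N => ?_⟩
  have hw := w_pos h
  have a1 : ∑ y ∈ range N, (y + 1 : ℝ) ^ (-γ) / (x + y + 2) ≤
      (1 - γ)⁻¹ * ∑ y ∈ range (x + 1 + N), w γ y / (x + y + 2) := by
    refine le_trans ?_ (mul_le_mul_of_nonneg_left (sum_le_sum_of_subset_of_nonneg
      (range_mono (Nat.le_add_left N (x + 1))) fun y _ _ => by have := hw y; positivity)
      (inv_pos.2 h1).le)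
    rw [mul_sum]
    refine sum_le_sum fun y _ => ?_
    rw [← mul_div_assoc]
    gcongr
    rw [le_inv_mul_iff₀ h1]
    exact w_ge h0.le h y
  have a2 : ∑ y ∈ range (x + 1), w γ y / (x + y + 2) ≤ (1 - γ)⁻¹ * w γ (x + 1) := by
    have : ∑ y ∈ range (x + 1), w γ y / (x + y + 2) ≤ ∑ y ∈ range (x + 1), w γ y / (x + 1) :=
      sum_le_sum fun y _ => div_le_div_of_nonneg_left (hw y).le (by positivity)
        (by linarith [Nat.cast_nonneg (α := ℝ) y])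
    refine this.trans (le_of_eq ?_)
    rw [← sum_div, eq_inv_mul_iff_mul_eq₀ h1.ne', ← mul_div_assoc, w_sum]
    push_cast
    field_simp
  have a3 : ∑ i ∈ range N, w γ (x + 1 + i) / (x + (x + 1 + i : ℕ) + 2) ≤ γ⁻¹ * w γ (x + 1) := by
    have : ∑ i ∈ range N, w γ (x + 1 + i) / (x + (x + 1 + i : ℕ) + 2) ≤
        ∑ i ∈ range N, w γ (x + 1 + i) / ((x + 1 + i : ℕ) + 1) :=
      sum_le_sum fun y _ => div_le_div_of_nonneg_left (hw _).le (by positivity)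
        (by linarith [Nat.cast_nonneg (α := ℝ) x])
    refine this.trans ?_
    rw [le_inv_mul_iff₀ h0, w_tail]
    linarith [hw (x + 1 + N)]
  have a4 : w γ (x + 1) ≤ (x + 1 : ℝ) ^ (-γ) := (w_anti h0.le h x).trans (w_le h0.le h x)
  rw [sum_range_add] at a1
  refine a1.trans ?_
  rw [mul_assoc]
  refine mul_le_mul_of_nonneg_left ((add_le_add a2 a3).trans ?_) (inv_pos.2 h1).le
  rw [← add_mul]
  exact mul_le_mul_of_nonneg_left a4 (by positivity)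

/-- coefficients of `(1 - z)^(-3/4)` -/
noncomputable def d : ℕ → ℝ := w (1 / 4)

/-- the kernel -/
noncomputable def K (a b : ℕ) : ℝ := a * d a * w (3 / 4) b / (a + b)

lemma d_pos (n : ℕ) : 0 < d n := w_pos (by norm_num) n

lemma K_nonneg (a b : ℕ) : 0 ≤ K a b := by
  have := d_pos a
  have := w_pos (show (3 / 4 : ℝ) < 1 by norm_num) b
  unfold K
  positivity

lemma K_zero (b : ℕ) : K 0 b = 0 := by simp [K]

lemma K_right (a : ℕ) : K (a + 1) 0 = d (a + 1) := by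
  simp only [K, w_zero, Nat.cast_zero, add_zero, mul_one]
  field_simp

lemma K_rec (a b : ℕ) : K (a + 1) b = K a (b + 1) + d a * K 1 b := by
  simp only [K, d, w_succ, w_zero]
  push_cast
  field_simp
  ring

lemma K_le (y x : ℕ) :
    K (y + 1) x ≤ 2 * (y + 1 : ℝ) ^ (3 / 4 : ℝ) * (x + 1 : ℝ) ^ (-(3 / 4) : ℝ) / (x + y + 2) := by
  have h1 : d (y + 1) ≤ (y + 1 : ℝ) ^ (-(1 / 4) : ℝ) :=
    (w_anti (by norm_num) (by norm_num) y).trans (w_le (by norm_num) (by norm_num) y)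
  have h2 := w_le (β := 3 / 4) (by norm_num) (by norm_num) x
  have h3 : (y + 1 : ℝ) * (y + 1 : ℝ) ^ (-(1 / 4) : ℝ) = (y + 1 : ℝ) ^ (3 / 4 : ℝ) := by
    rw [← rpow_one_add' (by positivity) (by norm_num)]; norm_num
  have h4 := w_pos (show (3 / 4 : ℝ) < 1 by norm_num) x
  have h5 : K (y + 1) x ≤ (y + 1 : ℝ) ^ (3 / 4 : ℝ) * (x + 1 : ℝ) ^ (-(3 / 4) : ℝ) / (y + 1 + x) := by
    unfold K
    push_cast
    rw [← h3]
    gcongr
  refine h5.trans ?_
  rw [mul_assoc, div_le_div_iff₀ (by positivity) (by positivity)]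
  have h6 : 0 ≤ (y + 1 : ℝ) ^ (3 / 4 : ℝ) * (x + 1 : ℝ) ^ (-(3 / 4) : ℝ) := by positivity
  nlinarith [mul_nonneg h6 (add_nonneg (Nat.cast_nonneg (α := ℝ) x) (Nat.cast_nonneg (α := ℝ) y))]

lemma schur : ∃ C, 0 ≤ C ∧ ∀ (f : ℕ → ℝ) (n M : ℕ), (∀ y, 0 ≤ f y) →
    ∑ x ∈ range M, (∑ y ∈ range n, K (y + 1) x * f y) ^ (5 / 4 : ℝ) ≤
      C * ∑ y ∈ range n, f y ^ (5 / 4 : ℝ) := by
  obtain ⟨C1, hC1, h1⟩ := hil (γ := 1 / 8) (by norm_num) (by norm_num)
  obtain ⟨C2, hC2, h2⟩ := hil (γ := 31 / 32) (by norm_num) (by norm_num)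
  refine ⟨(2 * C1) ^ (1 / 4 : ℝ) * (2 * C2), by positivity, fun f n M hf => ?_⟩
  have hK := K_nonneg
  have b1 : ∀ x : ℕ, ∑ y ∈ range n, K (y + 1) x * (y + 1 : ℝ) ^ (-(7 / 8) : ℝ) ≤
      2 * C1 * (x + 1 : ℝ) ^ (-(7 / 8) : ℝ) := fun x => by
    have e : (x + 1 : ℝ) ^ (-(7 / 8) : ℝ) =
        (x + 1 : ℝ) ^ (-(3 / 4) : ℝ) * (x + 1 : ℝ) ^ (-(1 / 8) : ℝ) := by
      rw [← rpow_add (by positivity)]; norm_num
    calc _ ≤ ∑ y ∈ range n, 2 * (x + 1 : ℝ) ^ (-(3 / 4) : ℝ) *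
          ((y + 1 : ℝ) ^ (-(1 / 8) : ℝ) / (x + y + 2)) := sum_le_sum fun y _ => by
          have e : (y + 1 : ℝ) ^ (-(1 / 8) : ℝ) =
              (y + 1 : ℝ) ^ (3 / 4 : ℝ) * (y + 1 : ℝ) ^ (-(7 / 8) : ℝ) := by
            rw [← rpow_add (by positivity)]; norm_num
          refine (mul_le_mul_of_nonneg_right (K_le y x) (by positivity)).trans_eq ?_
          rw [e]; ring
      _ ≤ _ := by
          rw [← mul_sum, e]
          refine (mul_le_mul_of_nonneg_left (h1 x n) (by positivity)).trans_eq (by ring)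
  have b2 : ∀ y : ℕ, ∑ x ∈ range M, (x + 1 : ℝ) ^ (-(7 / 32) : ℝ) *
      (K (y + 1) x * (y + 1 : ℝ) ^ (7 / 32 : ℝ)) ≤ 2 * C2 := fun y => by
    have e : (y + 1 : ℝ) ^ (3 / 4 : ℝ) * (y + 1 : ℝ) ^ (7 / 32 : ℝ) *
        (y + 1 : ℝ) ^ (-(31 / 32) : ℝ) = 1 := by
      rw [← rpow_add (by positivity), ← rpow_add (by positivity)]; norm_num
    calc _ ≤ ∑ x ∈ range M, 2 * ((y + 1 : ℝ) ^ (3 / 4 : ℝ) * (y + 1 : ℝ) ^ (7 / 32 : ℝ)) *
          ((x + 1 : ℝ) ^ (-(31 / 32) : ℝ) / (y + x + 2)) := sum_le_sum fun x _ => by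
          have e : (x + 1 : ℝ) ^ (-(31 / 32) : ℝ) =
              (x + 1 : ℝ) ^ (-(3 / 4) : ℝ) * (x + 1 : ℝ) ^ (-(7 / 32) : ℝ) := by
            rw [← rpow_add (by positivity)]; norm_num
          refine (mul_le_mul_of_nonneg_left (mul_le_mul_of_nonneg_right (K_le y x) (by positivity))
            (by positivity)).trans_eq ?_
          rw [e, add_comm (y : ℝ) x]; ring
      _ ≤ _ := by
          rw [← mul_sum]
          refine (mul_le_mul_of_nonneg_left (h2 y M) (by positivity)).trans_eq ?_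
          linear_combination 2 * C2 * e
  have b3 : ∀ x : ℕ, (∑ y ∈ range n, K (y + 1) x * f y) ^ (5 / 4 : ℝ) ≤
      (2 * C1) ^ (1 / 4 : ℝ) * ∑ y ∈ range n, (x + 1 : ℝ) ^ (-(7 / 32) : ℝ) *
        (K (y + 1) x * (y + 1 : ℝ) ^ (7 / 32 : ℝ)) * f y ^ (5 / 4 : ℝ) := fun x => by
    have hol := inner_le_weight_mul_Lp_of_nonneg (range n) (p := 5 / 4) (by norm_num)
      (fun y => K (y + 1) x * (y + 1 : ℝ) ^ (-(7 / 8) : ℝ))
      (fun y => (y + 1 : ℝ) ^ (7 / 8 : ℝ) * f y) (fun y => by have := hK (y + 1) x; positivity)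
      (fun y => by have := hf y; positivity)
    have e1 : ∀ y : ℕ, K (y + 1) x * (y + 1 : ℝ) ^ (-(7 / 8) : ℝ) *
        ((y + 1 : ℝ) ^ (7 / 8 : ℝ) * f y) = K (y + 1) x * f y := fun y => by
      rw [mul_assoc, ← mul_assoc _ _ (f y), ← rpow_add (by positivity)]; simp
    have e2 : ∀ y : ℕ, K (y + 1) x * (y + 1 : ℝ) ^ (-(7 / 8) : ℝ) *
        ((y + 1 : ℝ) ^ (7 / 8 : ℝ) * f y) ^ (5 / 4 : ℝ) =
        K (y + 1) x * (y + 1 : ℝ) ^ (7 / 32 : ℝ) * f y ^ (5 / 4 : ℝ) := fun y => by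
      rw [mul_rpow (by positivity) (hf y), ← rpow_mul (by positivity), mul_assoc,
        ← mul_assoc _ _ (f y ^ _), ← rpow_add (by positivity), ← mul_assoc]; norm_num
    simp only [e1, e2] at hol
    have s1 : 0 ≤ ∑ y ∈ range n, K (y + 1) x * (y + 1 : ℝ) ^ (-(7 / 8) : ℝ) :=
      sum_nonneg fun y _ => by have := hK (y + 1) x; positivity
    have s2 : 0 ≤ ∑ y ∈ range n, K (y + 1) x * (y + 1 : ℝ) ^ (7 / 32 : ℝ) * f y ^ (5 / 4 : ℝ) :=
      sum_nonneg fun y _ => by have := hK (y + 1) x; have := hf y; positivity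
    refine (rpow_le_rpow (sum_nonneg fun y _ => mul_nonneg (hK _ _) (hf y)) hol (by norm_num)).trans ?_
    rw [mul_rpow (by positivity) (by positivity), ← rpow_mul s1, ← rpow_mul s2]
    simp only [mul_assoc ((x + 1 : ℝ) ^ (-(7 / 32) : ℝ)), ← mul_sum]
    rw [show (1 - (5 / 4 : ℝ)⁻¹) * (5 / 4) = 1 / 4 by norm_num,
      show (5 / 4 : ℝ)⁻¹ * (5 / 4) = 1 by norm_num, rpow_one, ← mul_assoc]
    refine mul_le_mul_of_nonneg_right ((rpow_le_rpow s1 (b1 x) (by norm_num)).trans_eq ?_) s2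
    rw [mul_rpow (by positivity) (by positivity), ← rpow_mul (by positivity)]; norm_num
  refine (sum_le_sum fun x _ => b3 x).trans ?_
  rw [← mul_sum, sum_comm, mul_assoc]
  refine mul_le_mul_of_nonneg_left ?_ (by positivity)
  rw [mul_sum]
  refine sum_le_sum fun y _ => ?_
  rw [← sum_mul]
  exact mul_le_mul_of_nonneg_right (b2 y) (rpow_nonneg (hf y) _)

end Pool.Agent.H.MP_a83649_an
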