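import Pool.Agent.H.MP_a83649_an.A

namespace Pool.Agent.H.MP_a83649_an

open Finset Real Filter Topology
open scoped ComplexOrder

lemma K_col : ∃ C, 0 ≤ C ∧ ∀ y M : ℕ,
    ∑ x ∈ range M, K (y + 1) x ^ (5 / 4 : ℝ) ≤ C * (y + 1 : ℝ) ^ (-(1 / 4) : ℝ) := by
  obtain ⟨C, hC, h⟩ := hil (γ := 15 / 16) (by norm_num) (by norm_num)
  refine ⟨2 ^ (5 / 4 : ℝ) * C, by positivity, fun y M => ?_⟩
  have e : (y + 1 : ℝ) ^ (15 / 16 : ℝ) * (y + 1 : ℝ) ^ (-(15 / 16) : ℝ) = 1 := by
    rw [← rpow_add (by positivity)]; norm_num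
  calc _ ≤ ∑ x ∈ range M, 2 ^ (5 / 4 : ℝ) * (y + 1 : ℝ) ^ (15 / 16 : ℝ) *
        (y + 1 : ℝ) ^ (-(1 / 4) : ℝ) * ((x + 1 : ℝ) ^ (-(15 / 16) : ℝ) / (y + x + 2)) :=
        sum_le_sum fun x _ => by
          refine (rpow_le_rpow (K_nonneg _ _) (K_le y x) (by norm_num)).trans ?_
          have h1 : (x + y + 2 : ℝ) ^ (-(1 / 4) : ℝ) ≤ (y + 1 : ℝ) ^ (-(1 / 4) : ℝ) :=
            rpow_le_rpow_of_nonpos (by positivity) (by linarith [Nat.cast_nonneg (α := ℝ) x])
              (by norm_num)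
          have h2 : ((x + y + 2 : ℝ) ^ (5 / 4 : ℝ))⁻¹ =
              (x + y + 2 : ℝ) ^ (-(1 / 4) : ℝ) * (y + x + 2 : ℝ)⁻¹ := by
            rw [add_comm (y : ℝ), ← rpow_neg (by positivity), ← rpow_neg_one,
              ← rpow_add (by positivity)]; norm_num
          rw [div_rpow (by positivity) (by positivity), mul_rpow (by positivity) (by positivity),
            mul_rpow (by positivity) (by positivity), ← rpow_mul (by positivity),
            ← rpow_mul (by positivity), div_eq_mul_inv, h2,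
            show (3 / 4 : ℝ) * (5 / 4) = 15 / 16 by norm_num,
            show (-(3 / 4) : ℝ) * (5 / 4) = -(15 / 16) by norm_num]
          calc _ = 2 ^ (5 / 4 : ℝ) * (y + 1 : ℝ) ^ (15 / 16 : ℝ) * (x + y + 2 : ℝ) ^ (-(1 / 4) : ℝ) *
              ((x + 1 : ℝ) ^ (-(15 / 16) : ℝ) / (y + x + 2)) := by ring
            _ ≤ _ := by gcongr
    _ ≤ _ := by
        rw [← mul_sum]
        refine (mul_le_mul_of_nonneg_left (h y M) (by positivity)).trans_eq ?_
        linear_combination 2 ^ (5 / 4 : ℝ) * C * (y + 1 : ℝ) ^ (-(1 / 4) : ℝ) * e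

lemma K_conv (a b : ℕ) : K a b = ∑ i ∈ range a, d i * K 1 (a + b - i - 1) := by
  induction a generalizing b with
  | zero => simp [K_zero]
  | succ a ih =>
    rw [K_rec, ih, sum_range_succ, show a + 1 + b - a - 1 = b by omega,
      show a + 1 + b = a + (b + 1) by omega]

lemma d_conv (a : ℕ) : d (a + 1) = ∑ i ∈ range (a + 1), d i * K 1 (a - i) := by
  rw [← K_right, K_conv]
  exact sum_congr rfl fun i _ => by congr 2; omega

lemma dK (a r : ℕ) : ∑ b ∈ range (r + 1), d (r - b) * K (a + 1) b = d (a + 1 + r) := by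
  have base : ∀ r, ∑ b ∈ range (r + 1), d (r - b) * K 1 b = d (r + 1) := fun r => by
    rw [d_conv, ← sum_range_reflect]
    exact sum_congr rfl fun i hi => by
      have := mem_range.1 hi
      congr 2 <;> omega
  induction a generalizing r with
  | zero => rw [base]; congr 1; omega
  | succ a ih =>
    have h := ih (r + 1)
    rw [sum_range_succ', K_right] at h
    simp only [K_rec (a + 1), mul_add, sum_add_distrib, mul_left_comm _ (d (a + 1)), ← mul_sum, base]
    simp only [Nat.add_sub_add_right, Nat.sub_zero] at h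
    rw [show a + 1 + 1 + r = a + 1 + (r + 1) by omega, ← h]
    ring

/-- convolution with `d` -/
noncomputable def D (x : ℕ → ℂ) (j : ℕ) : ℂ := ∑ i ∈ range (j + 1), d (j - i) * x i

open PowerSeries in
lemma D_inv (x : ℕ → ℂ) (j : ℕ) :
    x (j + 1) = D x (j + 1) - ∑ i ∈ range (j + 1), D x i * K 1 (j - i) := by
  have hm : ∀ (f g : ℕ → ℂ) n, coeff n (PowerSeries.mk f * PowerSeries.mk g) = ∑ i ∈ range (n + 1), f i * g (n - i) :=
    fun f g n => by
      simp only [coeff_mul, coeff_mk]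
      exact Finset.Nat.sum_antidiagonal_eq_sum_range_succ (fun a b => f a * g b) n
  have h1 : PowerSeries.mk (D x) = PowerSeries.mk x * PowerSeries.mk fun n => (d n : ℂ) := by
    ext n
    rw [hm, coeff_mk, D]
    exact sum_congr rfl fun _ _ => mul_comm _ _
  have h2 : (PowerSeries.mk fun n => (d n : ℂ)) =
      1 + X * ((PowerSeries.mk fun n => (d n : ℂ)) * PowerSeries.mk fun n => (K 1 n : ℂ)) := by
    ext n
    cases n with
    | zero => simp [d]
    | succ a =>
      rw [map_add, coeff_succ_X_mul, hm, coeff_mk, d_conv]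
      simp [coeff_one]
  have h3 : PowerSeries.mk x = PowerSeries.mk (D x) -
      X * (PowerSeries.mk (D x) * PowerSeries.mk fun n => (K 1 n : ℂ)) := by
    rw [h1]
    linear_combination -(PowerSeries.mk x) * h2
  have := congrArg (coeff (j + 1)) h3
  rwa [map_sub, coeff_succ_X_mul, hm, coeff_mk, coeff_mk] at this

lemma D_zero (x : ℕ → ℂ) : D x 0 = x 0 := by simp [D, d]

lemma D_ext {x y : ℕ → ℂ} (h : ∀ j, D x j = D y j) : x = y := by
  funext j
  cases j with
  | zero => rw [← D_zero x, h, D_zero]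
  | succ j => simp only [D_inv x, D_inv y, h]

/-- the finite-rank part of the tail projection -/
noncomputable def Gf (n : ℕ) (x : ℕ → ℂ) (m : ℕ) : ℂ :=
  if m < n then 0 else ∑ i ∈ range n, K (n - i) (m - n) * x i

/-- the tail -/
noncomputable def Tf (n : ℕ) (x : ℕ → ℂ) (m : ℕ) : ℂ := if m < n then 0 else x m

lemma D_Q (n : ℕ) (x : ℕ → ℂ) (j : ℕ) :
    D (Tf n x + Gf n x) j = if j < n then 0 else D x j := by
  split_ifs with h
  · exact sum_eq_zero fun i hi => by
      have : i < n := by have := mem_range.1 hi; omega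
      simp [Tf, Gf, this]
  · obtain ⟨r, rfl⟩ := Nat.exists_eq_add_of_le (not_lt.1 h)
    have h0 : ∑ i ∈ range n, (d (n + r - i) : ℂ) * (Tf n x + Gf n x) i = 0 :=
      sum_eq_zero fun i hi => by simp [Tf, Gf, mem_range.1 hi]
    rw [D, D, add_assoc, sum_range_add _ n, sum_range_add _ n, h0, zero_add]
    simp only [Pi.add_apply, Tf, Gf, add_lt_iff_neg_left, not_lt_zero, if_false, mul_add,
      sum_add_distrib, Nat.add_sub_cancel_left, Nat.add_sub_add_left, mul_sum]
    rw [add_comm, sum_comm]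
    congr 1
    refine sum_congr rfl fun i hi => ?_
    have := mem_range.1 hi
    have h1 := dK (n - i - 1) r
    rw [show n - i - 1 + 1 = n - i by omega, show n - i + r = n + r - i by omega] at h1
    simp only [← mul_assoc, ← sum_mul, ← h1]
    push_cast
    rfl

lemma P_pos : 0 < P.toReal := by rw [P_toReal]; norm_num

lemma sum_shift (f : ℕ → ℝ) (hf : ∀ m, 0 ≤ f m) (n : ℕ) (h0 : ∀ m < n, f m = 0) {C : ℝ}
    (h : ∀ M, ∑ b ∈ range M, f (n + b) ≤ C) (s : Finset ℕ) : ∑ m ∈ s, f m ≤ C := by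
  obtain ⟨M, hM⟩ := s.exists_nat_subset_range
  refine (sum_le_sum_of_subset_of_nonneg (hM.trans (range_mono (Nat.le_add_left M n)))
    fun i _ _ => hf i).trans ?_
  rw [sum_range_add, sum_eq_zero fun i hi => h0 i (mem_range.1 hi), zero_add]
  exact h M

lemma G_bound : ∃ C, 0 ≤ C ∧ ∀ (n : ℕ) (x : LP) (s : Finset ℕ),
    ∑ m ∈ s, ‖Gf n x m‖ ^ P.toReal ≤ (C * ‖x‖) ^ P.toReal := by
  obtain ⟨C, hC, h⟩ := schur
  refine ⟨C ^ (4 / 5 : ℝ), by positivity, fun n x => sum_shift _ (fun _ => by positivity) n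
    (fun m hm => by simp [Gf, hm, P_pos.ne']) fun M => ?_⟩
  have h1 := lp.sum_rpow_le_norm_rpow P_pos x (range n)
  rw [← sum_range_reflect] at h1
  rw [mul_rpow (by positivity) (by positivity), ← rpow_mul hC]
  rw [P_toReal] at *
  rw [show (4 / 5 : ℝ) * (5 / 4) = 1 by norm_num, rpow_one]
  refine le_trans (sum_le_sum fun b _ => rpow_le_rpow (norm_nonneg _) ?_ (by norm_num))
    ((h (fun y => ‖x (n - 1 - y)‖) n M fun _ => norm_nonneg _).trans
      (mul_le_mul_of_nonneg_left h1 hC))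
  rw [Gf, if_neg (by omega), ← sum_range_reflect]
  refine (norm_sum_le _ _).trans_eq (sum_congr rfl fun y hy => ?_)
  have := mem_range.1 hy
  rw [norm_mul, Complex.norm_real, Real.norm_of_nonneg (K_nonneg _ _),
    show n - (n - 1 - y) = y + 1 by omega, Nat.add_sub_cancel_left]

/-- the norm bound -/
noncomputable def CQ : ℝ := 1 + G_bound.choose

lemma CQ_nonneg : 0 ≤ CQ := add_nonneg zero_le_one G_bound.choose_spec.1

lemma Tf_le (n : ℕ) (x : ℕ → ℂ) (m : ℕ) : ‖Tf n x m‖ ≤ ‖x m‖ := by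
  unfold Tf
  split_ifs <;> simp

/-- tail in `ℓ^p` -/
noncomputable def Tl (n : ℕ) (x : LP) : LP := ⟨Tf n x, (lp.memℓp x).mono' (Tf_le n x)⟩

/-- finite-rank part in `ℓ^p` -/
noncomputable def Gl (n : ℕ) (x : LP) : LP := ⟨Gf n x, memℓp_gen' (G_bound.choose_spec.2 n x)⟩

lemma Q_le (n : ℕ) (x : LP) : ‖Tl n x + Gl n x‖ ≤ CQ * ‖x‖ := by
  rw [CQ, add_mul, one_mul]
  exact norm_add_le_of_le (lp.norm_mono (by simp [P]) (Tf_le n x))
    (lp.norm_le_of_forall_sum_le P_pos (mul_nonneg G_bound.choose_spec.1 (norm_nonneg _))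
      (G_bound.choose_spec.2 n x))

/-- the positive tail projections -/
noncomputable def Q (n : ℕ) : LP →L[ℂ] LP :=
  LinearMap.mkContinuous
    { toFun := fun x => Tl n x + Gl n x
      map_add' := fun x y => lp.ext <| funext fun m => by
        show Tf n (x + y) m + Gf n (x + y) m = Tf n x m + Gf n x m + (Tf n y m + Gf n y m)
        simp only [Tf, Gf, Pi.add_apply, mul_add, sum_add_distrib]
        split_ifs <;> ring
      map_smul' := fun c x => lp.ext <| funext fun m => by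
        show Tf n (c • ⇑x) m + Gf n (c • ⇑x) m = c * (Tf n x m + Gf n x m)
        simp only [Tf, Gf, Pi.smul_apply, smul_eq_mul, mul_left_comm _ c, ← mul_sum]
        split_ifs <;> ring } CQ (Q_le n)

lemma Q_coe (n : ℕ) (x : LP) : ⇑(Q n x) = Tf n x + Gf n x := rfl

lemma Q_norm (n : ℕ) : ‖Q n‖ ≤ CQ := LinearMap.mkContinuous_norm_le _ CQ_nonneg _

/-- coordinates -/
abbrev ev (x : LP) (i : ℕ) : ℂ := x i

lemma Q_pos (n : ℕ) : Pos ev (Q n) := fun x hx m => by
  show 0 ≤ Tf n x m + Gf n x m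
  unfold Tf Gf
  split_ifs
  · simp
  · exact add_nonneg (hx m) (sum_nonneg fun i _ =>
      mul_nonneg (Complex.zero_le_real.2 (K_nonneg _ _)) (hx i))

/-- first basis vectors -/
noncomputable def e (i : ℕ) : LP := lp.single P i 1

lemma Q_tendsto (i : ℕ) : Tendsto (fun y => Q (i + (y + 1)) (e i)) atTop (𝓝 0) := by
  obtain ⟨C, hC, h⟩ := K_col
  rw [tendsto_zero_iff_norm_tendsto_zero]
  have h1 : Tendsto (fun y : ℕ => (C * (y + 1 : ℝ) ^ (-(1 / 4) : ℝ)) ^ (4 / 5 : ℝ)) atTop (𝓝 0) := by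
    have := ((tendsto_rpow_neg_atTop (show (0 : ℝ) < 1 / 4 by norm_num)).comp
      (tendsto_atTop_add_const_right _ 1 tendsto_natCast_atTop_atTop)).const_mul C
    simpa using this.rpow_const (p := 4 / 5) (Or.inr (by norm_num))
  refine squeeze_zero (fun _ => norm_nonneg _) (fun y => lp.norm_le_of_forall_sum_le P_pos
    (by positivity) (sum_shift _ (fun _ => by positivity) (i + (y + 1))
      (fun m hm => by simp [Q_coe, Tf, Gf, hm, P_pos.ne']) fun M => ?_)) h1
  rw [← rpow_mul (by positivity), P_toReal, show (4 / 5 : ℝ) * (5 / 4) = 1 by norm_num, rpow_one]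
  refine le_of_eq_of_le (sum_congr rfl fun b _ => ?_) (h y M)
  have h2 : Q (i + (y + 1)) (e i) (i + (y + 1) + b) = K (y + 1) b := by
    rw [Q_coe, Pi.add_apply, Tf, Gf, if_neg (by omega), if_neg (by omega), sum_eq_single i]
    · simp [e, lp.single_apply, Pi.single_eq_of_ne (show i + (y + 1) + b ≠ i by omega)]
    · intro j _ hj
      simp [e, lp.single_apply, Pi.single_eq_of_ne hj]
    · intro hi
      exact absurd (mem_range.2 (by omega)) hi
  rw [h2, Complex.norm_real, Real.norm_of_nonneg (K_nonneg _ _)]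

/-- the biorthogonal functionals -/
noncomputable def fs (j : ℕ) : LP →L[ℂ] ℂ :=
  ∑ i ∈ range (j + 1), (d (j - i) : ℂ) • lp.evalCLM ℂ (fun _ : ℕ => ℂ) P i

lemma fs_apply (j : ℕ) (x : LP) : fs j x = D x j := by
  simp only [fs, D, ContinuousLinearMap.sum_apply, ContinuousLinearMap.smul_apply, smul_eq_mul]
  rfl

lemma fs_e (j : ℕ) : fs j (e 0) = d j := by
  rw [fs_apply, D, sum_range_succ', sum_eq_zero fun i _ => by simp [e, lp.single_apply]]
  simp [e, lp.single_apply]

/-- `T` is the multiplier with symbol `μ` -/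
def Mult (T : LP →L[ℂ] LP) (μ : ℕ → ℂ) : Prop := ∀ j x, fs j (T x) = μ j * fs j x

lemma Mult.ext {S T : LP →L[ℂ] LP} {μ ν : ℕ → ℂ} (hS : Mult S μ) (hT : Mult T ν)
    (h : ∀ j, μ j = ν j) : S = T :=
  ContinuousLinearMap.ext fun x => lp.ext (D_ext fun j => by
    rw [← fs_apply, ← fs_apply, hS, hT, h])

lemma Mult.one : Mult 1 fun _ => 1 := fun j x => by simp

lemma Mult.mul {S T : LP →L[ℂ] LP} {μ ν : ℕ → ℂ} (hS : Mult S μ) (hT : Mult T ν) :
    Mult (S * T) fun j => μ j * ν j := fun j x => by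
  rw [ContinuousLinearMap.mul_apply, hS, hT, mul_assoc]

lemma Mult.sub {S T : LP →L[ℂ] LP} {μ ν : ℕ → ℂ} (hS : Mult S μ) (hT : Mult T ν) :
    Mult (S - T) fun j => μ j - ν j := fun j x => by
  rw [ContinuousLinearMap.sub_apply, map_sub, hS, hT, sub_mul]

lemma Mult.smul {T : LP →L[ℂ] LP} {μ : ℕ → ℂ} (hT : Mult T μ) (c : ℂ) :
    Mult (c • T) fun j => c * μ j := fun j x => by
  rw [ContinuousLinearMap.smul_apply, map_smul, hT, smul_eq_mul, mul_assoc]

lemma Mult.congr {T : LP →L[ℂ] LP} {μ ν : ℕ → ℂ} (hT : Mult T μ) (h : ∀ j, μ j = ν j) :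
    Mult T ν := fun j x => by rw [hT, h]

lemma Q_mult (n : ℕ) : Mult (Q n) fun j => if j < n then 0 else 1 := fun j x => by
  rw [fs_apply, Q_coe, D_Q, fs_apply]
  by_cases h : j < n <;> simp [h]

lemma Mult.coord {T : LP →L[ℂ] LP} {μ : ℕ → ℂ} (hT : Mult T μ) (j : ℕ) :
    T (e 0) (j + 1) = μ (j + 1) * d (j + 1) - ∑ i ∈ range (j + 1), μ i * d i * K 1 (j - i) := by
  have := D_inv (⇑(T (e 0))) j
  simpa only [← fs_apply, hT _ _, fs_e] using this

lemma Pos.isClosed : IsClosed {T : LP →L[ℂ] LP | Pos ev T} := by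
  simp only [Pos, Set.setOf_forall]
  refine isClosed_iInter fun x => isClosed_iInter fun _ => isClosed_iInter fun i =>
    isClosed_le continuous_const ?_
  exact (lp.evalCLM ℂ (fun _ : ℕ => ℂ) P i).continuous.comp
    (ContinuousLinearMap.apply ℂ LP x).continuous

lemma Pos.hasSum {f : ℕ → LP →L[ℂ] LP} {T : LP →L[ℂ] LP} (h : HasSum f T)
    (hf : ∀ k, Pos ev (f k)) : Pos ev T :=
  Pos.isClosed.mem_of_tendsto h.tendsto_sum_nat (Eventually.of_forall fun n x hx i => by
    simp only [ev, ContinuousLinearMap.sum_apply, lp.coeFn_sum, Finset.sum_apply]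
    exact sum_nonneg fun k _ => hf k x hx i)

lemma Pos.smul {T : LP →L[ℂ] LP} (h : Pos ev T) {c : ℂ} (hc : 0 ≤ c) : Pos ev ⇑(c • T) :=
  fun x hx i => mul_nonneg hc (h x hx i)

lemma exists_op (μ : ℕ → ℂ) {V : ℝ} (h : ∀ N, ∑ k ∈ range N, ‖μ (k + 1) - μ k‖ ≤ V) :
    ∃ T, Mult T μ ∧ ‖T‖ ≤ ‖μ 0‖ + CQ * V ∧ (μ 0 = 0 → (∀ k, μ k ≤ μ (k + 1)) → Pos ev T) := by
  have h1 := summable_of_sum_range_le (fun _ => norm_nonneg _) h
  have h2 : ∀ k, ‖(μ (k + 1) - μ k) • Q (k + 1)‖ ≤ CQ * ‖μ (k + 1) - μ k‖ := fun k => by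
    rw [mul_comm]
    exact (norm_smul_le _ _).trans (mul_le_mul_of_nonneg_left (Q_norm _) (norm_nonneg _))
  have h3 := (Summable.of_norm_bounded (h1.mul_left CQ) h2).hasSum
  refine ⟨μ 0 • 1 + ∑' k, (μ (k + 1) - μ k) • Q (k + 1), fun j x => ?_, ?_, fun h0 hm => ?_⟩
  · have h4 := ((fs j).comp (ContinuousLinearMap.apply ℂ LP x)).hasSum h3
    have h5 : HasSum (fun k => ((fs j).comp (ContinuousLinearMap.apply ℂ LP x))
        ((μ (k + 1) - μ k) • Q (k + 1))) (∑ k ∈ range j, (μ (k + 1) - μ k) * fs j x) := by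
      convert hasSum_sum_of_ne_finset_zero (s := range j) (L := .unconditional ℕ)
        (f := fun k => if k < j then (μ (k + 1) - μ k) * fs j x else 0)
        (fun k hk => if_neg (by simpa using hk)) using 1
      · funext k
        simp only [ContinuousLinearMap.comp_apply, ContinuousLinearMap.apply_apply,
          ((Q_mult (k + 1)).smul _) j x]
        split_ifs <;> first | omega | simp
      · exact sum_congr rfl fun k hk => (if_pos (mem_range.1 hk)).symm
    have h6 : fs j ((∑' k, (μ (k + 1) - μ k) • Q (k + 1)) x) = _ := h4.unique h5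
    rw [ContinuousLinearMap.add_apply, map_add, h6, ← sum_mul, sum_range_sub]
    simp
    ring
  · refine norm_add_le_of_le ((norm_smul_le (μ 0) (1 : LP →L[ℂ] LP)).trans
      (mul_le_of_le_one_right (norm_nonneg _) ContinuousLinearMap.norm_id_le)) ?_
    refine (tsum_of_norm_bounded (h1.hasSum.mul_left CQ) h2).trans ?_
    exact mul_le_mul_of_nonneg_left (h1.tsum_le_of_sum_range_le h) CQ_nonneg
  · rw [h0, zero_smul, zero_add]
    exact Pos.hasSum h3 fun k => (Q_pos _).smul (sub_nonneg.2 (hm k))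

end Pool.Agent.H.MP_a83649_an
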