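import Pool.Agent.H.MP_a83649_an.B

namespace Pool.Agent.H.MP_a83649_an

open Finset Real Filter Topology
open scoped ComplexOrder

lemma sep {c : ℝ} (hc : c < 1) (hc' : -1 ≤ c) : ∃ δ > 0, ∀ z : ℂ, z.re ≤ c * ‖z‖ →
    ∀ t : ℝ, 0 ≤ t → δ * (‖z‖ + t) ≤ ‖z - t‖ := by
  refine ⟨√((1 - c) / 2), sqrt_pos.2 (by linarith), fun z hz t ht => ?_⟩
  refine abs_le_of_sq_le_sq' ?_ (norm_nonneg _) |>.2
  have h1 : ‖z - t‖ ^ 2 = ‖z‖ ^ 2 - 2 * t * z.re + t ^ 2 := by
    simp only [Complex.sq_norm, Complex.normSq_apply, Complex.sub_re, Complex.sub_im,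
      Complex.ofReal_re, Complex.ofReal_im]
    ring
  rw [mul_pow, sq_sqrt (by linarith), h1]
  nlinarith [mul_nonneg (show 0 ≤ 1 + c by linarith) (sq_nonneg (‖z‖ - t)),
    mul_le_mul_of_nonneg_left hz ht]

lemma re_eq (z : ℂ) : z.re = cos |z.arg| * ‖z‖ := by
  rw [cos_abs, mul_comm, Complex.norm_mul_cos_arg]

lemma sep_out {ω : ℝ} (hω : 0 < ω) : ∃ δ > 0, ∀ z : ℂ, ω ≤ |z.arg| →
    ∀ t : ℝ, 0 ≤ t → δ * (‖z‖ + t) ≤ ‖z - t‖ := by
  have h0 : 0 < min ω 1 := lt_min hω one_pos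
  have h1 : min ω 1 ≤ π := (min_le_right _ _).trans (by linarith [pi_gt_three])
  obtain ⟨δ, hδ, h⟩ := sep (c := cos (min ω 1))
    (by simpa using cos_lt_cos_of_nonneg_of_le_pi le_rfl h1 h0) (neg_one_le_cos _)
  refine ⟨δ, hδ, fun z hz => h z ?_⟩
  rw [re_eq]
  exact mul_le_mul_of_nonneg_right (cos_le_cos_of_nonneg_of_le_pi h0.le
    (Complex.abs_arg_le_pi z) ((min_le_left _ _).trans hz)) (norm_nonneg _)

lemma sep_in {σ : ℝ} (h0 : 0 < σ) (hσ : σ < π) : ∃ δ > 0, ∀ z ∈ sec σ,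
    ∀ t : ℝ, 0 ≤ t → δ * (‖z‖ + t) ≤ ‖z + t‖ := by
  obtain ⟨δ, hδ, h⟩ := sep (c := -cos σ)
    (by have := cos_lt_cos_of_nonneg_of_le_pi h0.le le_rfl hσ; rw [cos_pi] at this; linarith)
    (by linarith [cos_le_one σ])
  refine ⟨δ, hδ, fun z hz t ht => ?_⟩
  have := h (-z) (by
    rw [Complex.neg_re, re_eq, norm_neg, neg_mul, neg_le_neg_iff]
    exact mul_le_mul_of_nonneg_right (cos_le_cos_of_nonneg_of_le_pi (abs_nonneg _) hσ.le hz.2.le)
      (norm_nonneg _)) t ht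
  rwa [norm_neg, ← neg_add', norm_neg] at this

lemma pos_mem_sec {ω t : ℝ} (hω : 0 < ω) (ht : 0 < t) : (t : ℂ) ∈ sec ω :=
  ⟨by exact_mod_cast ht.ne', by rwa [Complex.arg_ofReal_of_nonneg ht.le, abs_zero]⟩

lemma out_of {ω : ℝ} (hω : 0 < ω) {z : ℂ} (hz : z ∉ closure (sec ω)) : z ≠ 0 ∧ ω ≤ |z.arg| := by
  have h0 : z ≠ 0 := by
    rintro rfl
    refine hz (mem_closure_of_tendsto (f := fun t : ℝ => (t : ℂ)) (b := 𝓝[>] 0) ?_ ?_)
    · exact (Complex.continuous_ofReal.tendsto' 0 0 (by simp)).mono_left nhdsWithin_le_nhds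
    · filter_upwards [self_mem_nhdsWithin] with t ht using pos_mem_sec hω ht
  exact ⟨h0, not_lt.1 fun h => hz (subset_closure ⟨h0, h⟩)⟩

/-- the eigenvalues -/
noncomputable def lam (k : ℕ) : ℝ := (1 / 2) ^ k

lemma lam_pos (k : ℕ) : 0 < lam k := by unfold lam; positivity

lemma lam_succ (k : ℕ) : lam (k + 1) = lam k / 2 := by unfold lam; ring

lemma lam_anti {i j : ℕ} (h : i ≤ j) : lam j ≤ lam i :=
  pow_le_pow_of_le_one (by norm_num) (by norm_num) h

lemma exB : ∃ B, Mult B (fun k => 1 - lam k) ∧ Pos ev B := by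
  obtain ⟨T, h1, -, h2⟩ := exists_op (fun k => 1 - lam k) (V := 1) fun N => by
    have : ∀ k, ‖(1 - lam (k + 1) : ℂ) - (1 - lam k)‖ = lam k - lam (k + 1) := fun k => by
      rw [show (1 - lam (k + 1) : ℂ) - (1 - lam k) = (lam k - lam (k + 1) : ℝ) by push_cast; ring,
        Complex.norm_real, Real.norm_of_nonneg (sub_nonneg.2 (lam_anti k.le_succ))]
    simp only [this, sum_range_sub']
    have := lam_pos N
    simp only [lam, pow_zero] at *
    linarith
  exact ⟨T, h1, h2 (by simp [lam]) fun k =>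
    sub_le_sub_left (Complex.real_le_real.2 (lam_anti k.le_succ)) _⟩

/-- the operator -/
noncomputable def Aop : LP →L[ℂ] LP := 1 - exB.choose

lemma A_mult : Mult Aop fun k => lam k :=
  (Mult.one.sub exB.choose_spec.1).congr fun k => by ring

lemma Pos.mul {S T : LP →L[ℂ] LP} (hS : Pos ev S) (hT : Pos ev T) : Pos ev ⇑(S * T) :=
  fun x hx => hS _ (hT x hx)

lemma Pos.pow {T : LP →L[ℂ] LP} (hT : Pos ev T) (n : ℕ) : Pos ev ⇑(T ^ n) := by
  induction n with
  | zero => exact fun x hx => hx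
  | succ n ih => rw [pow_succ]; exact ih.mul hT

lemma sg_pos {t : ℝ} (ht : 0 ≤ t) : Pos ev (sg Aop t) := by
  have h1 : (-t : ℂ) • Aop = algebraMap ℂ _ (-t) + (t : ℂ) • exB.choose := by
    rw [Aop, Algebra.algebraMap_eq_smul_one, smul_sub, sub_eq_add_neg, ← neg_smul, neg_neg]
  have hr : ∀ x : LP →L[ℂ] LP,
      x ∈ Metric.eball 0 (NormedSpace.expSeries ℂ (LP →L[ℂ] LP)).radius := fun x =>
    (NormedSpace.expSeries_radius_eq_top ℂ (LP →L[ℂ] LP)).symm ▸ edist_lt_top _ _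
  rw [sg, h1, NormedSpace.exp_add_of_commute_of_mem_ball (Algebra.commutes _ _) (hr _) (hr _),
    ← NormedSpace.algebraMap_exp_comm, ← Algebra.smul_def]
  refine Pos.smul (Pos.hasSum (NormedSpace.exp_series_hasSum_exp' (𝕂 := ℂ) _) fun k =>
    ((exB.choose_spec.2.smul (Complex.zero_le_real.2 ht)).pow k).smul (by positivity)) ?_
  rw [← Complex.exp_eq_exp_ℂ, ← Complex.ofReal_neg, ← Complex.ofReal_exp]
  exact Complex.zero_le_real.2 (exp_pos _).le

lemma res_mult {z : ℂ} {δ : ℝ} (hz : z ≠ 0) (hδ : 0 < δ)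
    (h : ∀ t : ℝ, 0 ≤ t → δ * (‖z‖ + t) ≤ ‖z - t‖) :
    z ∈ resolventSet ℂ Aop ∧ Mult (zR Aop z) (fun k => z / (z - lam k)) ∧
      ‖zR Aop z‖ ≤ δ⁻¹ + CQ * δ⁻¹ ^ 2 := by
  have hr := norm_pos_iff.2 hz
  have hp : ∀ k, 0 < δ * (‖z‖ + lam k) := fun k => mul_pos hδ (add_pos hr (lam_pos k))
  have hn : ∀ k, z - lam k ≠ 0 := fun k => norm_pos_iff.1 ((hp k).trans_le (h _ (lam_pos k).le))
  obtain ⟨T, h1, h2, -⟩ := exists_op (fun k => z / (z - lam k)) (V := δ⁻¹ ^ 2) fun N => by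
    have : ∀ k, ‖z / (z - lam (k + 1)) - z / (z - lam k)‖ ≤
        δ⁻¹ ^ 2 * (‖z‖ / (‖z‖ + lam (k + 1))) - δ⁻¹ ^ 2 * (‖z‖ / (‖z‖ + lam k)) := fun k => by
      have e1 : z / (z - lam (k + 1)) - z / (z - lam k) =
          -(z * (lam k - lam (k + 1) : ℝ) / ((z - lam (k + 1)) * (z - lam k))) := by
        have := hn k
        have := hn (k + 1)
        push_cast
        field_simp
        ring
      have h3 := sub_nonneg.2 (lam_anti k.le_succ)
      rw [e1, norm_neg, norm_div, norm_mul, norm_mul, Complex.norm_real, Real.norm_of_nonneg h3]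
      refine (div_le_div_of_nonneg_left (mul_nonneg hr.le h3) (mul_pos (hp _) (hp _))
        (mul_le_mul (h _ (lam_pos (k + 1)).le) (h _ (lam_pos k).le) (hp _).le
          (norm_nonneg _))).trans_eq ?_
      have := add_pos hr (lam_pos k)
      have := add_pos hr (lam_pos (k + 1))
      field_simp
      ring
    refine (sum_le_sum fun k _ => this k).trans ?_
    rw [sum_range_sub fun k => δ⁻¹ ^ 2 * (‖z‖ / (‖z‖ + lam k))]
    have := lam_pos 0
    refine (sub_le_self _ (by positivity)).trans (mul_le_of_le_one_right (by positivity) ?_)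
    exact div_le_one_of_le₀ (le_add_of_nonneg_right (lam_pos N).le) (add_pos hr (lam_pos N)).le
  have h3 : Mult (algebraMap ℂ _ z - Aop) fun k => z * 1 - lam k := by
    rw [Algebra.algebraMap_eq_smul_one]
    exact (Mult.one.smul z).sub A_mult
  let u : (LP →L[ℂ] LP)ˣ := ⟨algebraMap ℂ _ z - Aop, z⁻¹ • T,
    (h3.mul (h1.smul _)).ext Mult.one fun k => by have := hn k; field_simp,
    ((h1.smul _).mul h3).ext Mult.one fun k => by have := hn k; field_simp⟩
  have h4 : zR Aop z = T := by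
    have : resolvent Aop z = z⁻¹ • T := Ring.inverse_unit u
    rw [zR, this, smul_smul, mul_inv_cancel₀ hz, one_smul]
  refine ⟨u.isUnit, h4 ▸ h1, h4 ▸ h2.trans (add_le_add_left ?_ _)⟩
  rw [norm_div, div_le_iff₀ (norm_pos_iff.2 (hn 0)), ← div_eq_inv_mul, le_div_iff₀' hδ]
  exact (mul_le_mul_of_nonneg_left (le_add_of_nonneg_right (lam_pos 0).le) hδ.le).trans
    (h _ (lam_pos 0).le)

lemma A_sec {ω : ℝ} (hω : 0 < ω) : SecAt Aop ω := by
  refine ⟨fun z hz => by_contra fun h => ?_, fun ε hε => ?_⟩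
  · obtain ⟨δ, hδ, h1⟩ := sep_out hω
    exact hz (res_mult (out_of hω h).1 hδ (h1 z (out_of hω h).2)).1
  · obtain ⟨δ, hδ, h1⟩ := sep_out (add_pos hω hε)
    exact ⟨_, fun z h => (res_mult (out_of (add_pos hω hε) h).1 hδ
      (h1 z (out_of (add_pos hω hε) h).2)).2.2⟩

lemma A_dense : DenseRange Aop := by
  have h1 : ∀ n x, x - Q n x ∈ Aop.range := fun n x => by
    let μ : ℕ → ℂ := fun k => if k < n then (lam k : ℂ)⁻¹ else 0
    obtain ⟨T, h1, -⟩ := exists_op μ (V := ∑ k ∈ range n, ‖μ (k + 1) - μ k‖) fun N =>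
      (sum_le_sum_of_subset_of_nonneg (range_mono (Nat.le_add_left N n))
        fun i _ _ => norm_nonneg _).trans_eq (by
          rw [sum_range_add, sum_eq_zero (s := range N) fun i _ => by
            simp [μ, show ¬ n + i + 1 < n by omega], add_zero])
    have h2 : Aop * T = 1 - Q n := (A_mult.mul h1).ext (Mult.one.sub (Q_mult n)) fun k => by
      have := (lam_pos k).ne'
      by_cases h : k < n <;> simp [μ, h, this]
    exact ⟨T x, congrArg (· x) h2⟩
  have h2 : ∀ i, e i ∈ Aop.range.topologicalClosure := fun i =>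
    mem_closure_of_tendsto (b := atTop) (by simpa using (Q_tendsto i).const_sub (e i))
      (Eventually.of_forall fun y => h1 (i + (y + 1)) (e i))
  intro x
  refine Aop.range.isClosed_topologicalClosure.mem_of_tendsto
    (lp.hasSum_single (by simp [P, ENNReal.div_eq_top]) x).tendsto_sum_nat
    (Eventually.of_forall fun n => Submodule.sum_mem _ fun i _ => ?_)
  convert Submodule.smul_mem _ (x i) (h2 i)
  rw [e, ← lp.single_smul, smul_eq_mul, mul_one]

end Pool.Agent.H.MP_a83649_an
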