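import Pool.Agent.H.MP_a83649_an.C

namespace Pool.Agent.H.MP_a83649_an

open Real Filter Topology Complex MeasureTheory

/-- decaying holomorphic functions -/
def Cl (σ : ℝ) (f : ℂ → ℂ) : Prop :=
  DifferentiableOn ℂ f (sec σ) ∧ ∃ C, 0 ≤ C ∧ ∀ z ∈ sec σ, ‖f z‖ ≤ C * (‖z‖ / (1 + ‖z‖) ^ 2)

lemma Cl.h0 {σ : ℝ} {f : ℂ → ℂ} (h : Cl σ f) : H0 σ f := by
  obtain ⟨h1, C, -, h2⟩ := h
  refine ⟨h1, C, 1, one_pos, fun z hz => (h2 z hz).trans_eq ?_⟩
  rw [Real.rpow_one, mul_one, Real.rpow_neg (by positivity), Real.rpow_two, mul_assoc,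
    div_eq_mul_inv]

lemma arg_ray {y : ℝ} (u : ℝ) (hy : |y| < π) : arg (cexp (u + y * I)) = y := by
  have := abs_lt.1 hy
  rw [← log_im, log_exp (by simp; linarith) (by simp; linarith)]
  simp

lemma norm_ray (u y : ℝ) : ‖cexp (u + y * I)‖ = rexp u := by
  rw [norm_exp]; simp

lemma ray_mem {σ y : ℝ} (hσ : σ < π) (u : ℝ) (hy : |y| < σ) : cexp (u + y * I) ∈ sec σ :=
  ⟨exp_ne_zero _, by rwa [arg_ray u (hy.trans hσ)]⟩

lemma dec (u : ℝ) : rexp u / (1 + rexp u) ^ 2 ≤ 2 * (1 + u ^ 2)⁻¹ := by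
  have h := Real.exp_pos u
  have h1 : rexp u * rexp (-u) = 1 := by rw [← Real.exp_add]; simp
  have h2 : 1 + u ^ 2 / 2 ≤ rexp u + rexp (-u) := by
    rcases le_total 0 u with h0 | h0
    · linarith [Real.quadratic_le_exp_of_nonneg h0, Real.exp_pos (-u)]
    · have := Real.quadratic_le_exp_of_nonneg (neg_nonneg.2 h0)
      rw [neg_sq] at this
      linarith
  rw [← div_eq_mul_inv, div_le_div_iff₀ (by positivity) (by positivity)]
  nlinarith [mul_le_mul_of_nonneg_left h2 h.le]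

lemma Cl.ray {σ : ℝ} {f : ℂ → ℂ} (h : Cl σ f) (hσ : σ < π) : ∃ C, 0 ≤ C ∧ ∀ u y : ℝ, |y| < σ →
    ‖f (cexp (u + y * I))‖ ≤ C * (1 + u ^ 2)⁻¹ := by
  obtain ⟨-, C, hC, h2⟩ := h
  refine ⟨C * 2, by positivity, fun u y hy => (h2 _ (ray_mem hσ u hy)).trans ?_⟩
  rw [norm_ray, mul_assoc]
  exact mul_le_mul_of_nonneg_left (dec u) hC

lemma Cl.int {E : Type} [NormedAddCommGroup E] [NormedSpace ℂ E] {σ y M : ℝ} {f : ℂ → ℂ}
    (h : Cl σ f) (hσ : σ < π) (hy : |y| < σ) {g : ℝ → E} (hg : Continuous g)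
    (hM : ∀ u, ‖g u‖ ≤ M) : Integrable fun u : ℝ => f (cexp (u + y * I)) • g u := by
  obtain ⟨C, hC, h2⟩ := h.ray hσ
  refine ((integrable_inv_one_add_sq.const_mul C).mul_const M).mono'
    ((h.1.continuousOn.comp_continuous (by fun_prop) fun u => ray_mem hσ u hy).smul
      hg).aestronglyMeasurable (Eventually.of_forall fun u => ?_)
  rw [norm_smul]
  exact mul_le_mul (h2 u y hy) (hM u) (norm_nonneg _) (by positivity)

/-- the basic rational functions -/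
noncomputable def rho (a b : ℝ) (z : ℂ) : ℂ := z / ((z + a) * (z + b))

lemma rho_le {σ : ℝ} (h0 : 0 < σ) (hσ : σ < π) : ∃ C, 0 ≤ C ∧ ∀ a b : ℝ, 0 < a → 0 < b →
    ∀ z ∈ sec σ, (z + a) * (z + b) ≠ 0 ∧ ‖rho a b z‖ ≤ C * (‖z‖ / ((‖z‖ + a) * (‖z‖ + b))) := by
  obtain ⟨δ, hδ, h⟩ := sep_in h0 hσ
  refine ⟨δ⁻¹ ^ 2, by positivity, fun a b ha hb z hz => ?_⟩
  have h1 : 0 < δ * (‖z‖ + a) * (δ * (‖z‖ + b)) := by positivity
  have h2 := mul_le_mul (h z hz a ha.le) (h z hz b hb.le) (by positivity) (norm_nonneg _)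
  rw [← norm_mul] at h2
  refine ⟨norm_pos_iff.1 (h1.trans_le h2), ?_⟩
  rw [rho, norm_div]
  refine (div_le_div_of_nonneg_left (norm_nonneg _) h1 h2).trans_eq ?_
  field_simp

lemma rho_cl {σ a b : ℝ} (h0 : 0 < σ) (hσ : σ < π) (ha : 0 < a) (hb : 0 < b) :
    Cl σ (rho a b) := by
  obtain ⟨C, hC, h⟩ := rho_le h0 hσ
  refine ⟨fun z hz => (DifferentiableAt.div (c := fun z : ℂ => z)
    (d := fun z : ℂ => (z + a) * (z + b)) (by fun_prop) (by fun_prop)
    (h a b ha hb z hz).1).differentiableWithinAt, C * ((1 + a⁻¹) * (1 + b⁻¹)), by positivity,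
    fun z hz => (h a b ha hb z hz).2.trans ?_⟩
  have h1 : ∀ a : ℝ, 0 < a → 1 + ‖z‖ ≤ (1 + a⁻¹) * (‖z‖ + a) := fun a ha => by
    have := mul_nonneg (inv_nonneg.2 ha.le) (norm_nonneg z)
    have := inv_mul_cancel₀ ha.ne'
    nlinarith
  rw [mul_assoc]
  refine mul_le_mul_of_nonneg_left ?_ hC
  rw [mul_div_assoc', div_le_div_iff₀ (by positivity) (by positivity)]
  have h2 := mul_le_mul (h1 a ha) (h1 b hb) (by positivity) (by positivity)
  calc _ = ‖z‖ * ((1 + ‖z‖) * (1 + ‖z‖)) := by ring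
    _ ≤ _ := (mul_le_mul_of_nonneg_left h2 (norm_nonneg _)).trans_eq (by ring)

lemma Cl.mul {σ M : ℝ} {f g : ℂ → ℂ} (h : Cl σ f) (hg : DifferentiableOn ℂ g (sec σ))
    (hM : ∀ z ∈ sec σ, ‖g z‖ ≤ M) (h0 : 0 ≤ M) : Cl σ fun z => g z * f z := by
  obtain ⟨h1, C, hC, h2⟩ := h
  refine ⟨hg.mul h1, M * C, by positivity, fun z hz => ?_⟩
  rw [norm_mul, mul_assoc]
  exact mul_le_mul (hM z hz) (h2 z hz) (norm_nonneg _) h0

lemma Cl.sub {σ : ℝ} {f g : ℂ → ℂ} (hf : Cl σ f) (hg : Cl σ g) : Cl σ fun z => f z - g z := by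
  obtain ⟨h1, C, hC, h2⟩ := hf
  obtain ⟨h3, C', hC', h4⟩ := hg
  refine ⟨h1.sub h3, C + C', by positivity, fun z hz => ?_⟩
  rw [add_mul]
  exact norm_sub_le_of_le (h2 z hz) (h4 z hz)

/-- the scalar ray integral -/
noncomputable def sray (μ : ℝ) (f : ℂ → ℂ) (y : ℝ) : ℂ :=
  ∫ u : ℝ, f (cexp (u + y * I)) * (cexp (u + y * I) / (cexp (u + y * I) - μ))

lemma ker_bd {y μ : ℝ} (hy : 0 < |y|) (hy' : |y| < π) (hμ : 0 < μ) : ∃ M, ∀ u : ℝ,
    cexp (u + y * I) - μ ≠ 0 ∧ ‖cexp (u + y * I) / (cexp (u + y * I) - μ)‖ ≤ M := by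
  obtain ⟨δ, hδ, h⟩ := sep_out hy
  refine ⟨δ⁻¹, fun u => ?_⟩
  have h1 := h (cexp (u + y * I)) (by rw [arg_ray u hy']) μ hμ.le
  have h2 := norm_pos_iff.1 (lt_of_lt_of_le (by positivity) h1)
  refine ⟨h2, ?_⟩
  rw [norm_div, div_le_iff₀ (norm_pos_iff.2 h2), ← div_eq_inv_mul, le_div_iff₀' hδ]
  exact (mul_le_mul_of_nonneg_left (le_add_of_nonneg_right hμ.le) hδ.le).trans h1

lemma Cl.sint {σ y μ : ℝ} {f : ℂ → ℂ} (h : Cl σ f) (hσ : σ < π) (hy : 0 < |y|) (hy' : |y| < σ)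
    (hμ : 0 < μ) : Integrable fun u : ℝ =>
      f (cexp (u + y * I)) * (cexp (u + y * I) / (cexp (u + y * I) - μ)) := by
  obtain ⟨M, hM⟩ := ker_bd hy (hy'.trans hσ) hμ
  exact h.int hσ hy' (Continuous.div (by fun_prop) (by fun_prop) fun u => (hM u).1)
    fun u => (hM u).2

lemma vert {z : ℂ} {μ : ℝ} (hμ : 0 < μ) (h : 2 * μ ≤ ‖z‖ ∨ 2 * ‖z‖ ≤ μ) :
    z ≠ μ ∧ ‖z / (z - μ)‖ ≤ 2 := by
  have h1 := norm_sub_norm_le z μ
  have h2 := norm_sub_norm_le (μ : ℂ) z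
  rw [norm_sub_rev] at h2
  rw [norm_real, Real.norm_of_nonneg hμ.le] at h1 h2
  have h3 : 0 < ‖z - μ‖ := by rcases h with h | h <;> linarith [norm_nonneg z]
  refine ⟨sub_ne_zero.1 (norm_pos_iff.1 h3), ?_⟩
  rw [norm_div, div_le_iff₀ h3]
  rcases h with h | h <;> linarith

lemma sray_zero {σ θ μ : ℝ} {f : ℂ → ℂ} (h : Cl σ f) (hσ : σ < π) (h0 : 0 < θ) (hθ : θ < σ)
    (hμ : 0 < μ) (hf : f μ = 0) : sray μ f (-θ) = sray μ f θ := by
  let G : ℂ → ℂ := fun w => cexp w * dslope f μ (cexp w)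
  have hG : ∀ w, cexp w ≠ μ → G w = f (cexp w) * (cexp w / (cexp w - μ)) := fun w hw => by
    simp only [G, dslope_of_ne _ hw, slope_def_field, hf]
    ring
  have hs : sec σ ∈ 𝓝 (μ : ℂ) := by
    have h1 : ContinuousAt (fun z => |arg z|) μ :=
      (continuousAt_arg (ofReal_mem_slitPlane.2 hμ)).abs
    exact inter_mem (isOpen_ne.mem_nhds (pos_mem_sec (h0.trans hθ) hμ).1)
      (h1.eventually_lt continuousAt_const (pos_mem_sec (h0.trans hθ) hμ).2)
  have hd : ∀ R : ℝ, DifferentiableOn ℂ G (Set.uIcc (-R) R ×ℂ Set.uIcc (-θ) θ) := fun R =>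
    differentiable_exp.differentiableOn.mul (((differentiableOn_dslope hs).2 h.1).comp
      differentiable_exp.differentiableOn fun w hw => by
        have h1 := hw.2
        rw [Set.mem_preimage, Set.uIcc_of_le (by linarith)] at h1
        rw [← re_add_im w]
        exact ray_mem hσ _ ((abs_le.2 h1).trans_lt hθ))
  have hl : ∀ y : ℝ, |y| = θ → Tendsto (fun R : ℝ => ∫ u : ℝ in -R..R, G (u + y * I)) atTop
      (𝓝 (sray μ f y)) := fun y hy => by
    obtain ⟨M, hM⟩ := ker_bd (hy ▸ h0) (hy ▸ hθ.trans hσ) hμ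
    simp only [hG _ (sub_ne_zero.1 (hM _).1)]
    exact intervalIntegral_tendsto_integral (h.sint hσ (hy ▸ h0) (hy ▸ hθ) hμ)
      tendsto_neg_atTop_atBot tendsto_id
  obtain ⟨C, hC, h2⟩ := h.ray hσ
  have hv : ∀ (a : ℝ → ℝ), (∀ R, a R ^ 2 = R ^ 2) →
      (∀ᶠ R in atTop, 2 * μ ≤ rexp (a R) ∨ 2 * rexp (a R) ≤ μ) →
      Tendsto (fun R : ℝ => ∫ y : ℝ in -θ..θ, G (a R + y * I)) atTop (𝓝 0) := fun a ha hb => by
    have h3 : Tendsto (fun R : ℝ => C * (1 + R ^ 2)⁻¹ * 2 * |θ - -θ|) atTop (𝓝 0) := by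
      have := (tendsto_atTop_add_const_left _ (1 : ℝ)
        (tendsto_pow_atTop (α := ℝ) two_ne_zero)).inv_tendsto_atTop
      simpa using ((this.const_mul C).mul_const 2).mul_const |θ - -θ|
    refine squeeze_zero_norm' ?_ h3
    filter_upwards [hb] with R hR
    refine intervalIntegral.norm_integral_le_of_norm_le_const fun y hy => ?_
    rw [Set.uIoc_of_le (by linarith)] at hy
    rw [← norm_ray (a R) y] at hR
    rw [hG _ (vert hμ hR).1, norm_mul, ← ha]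
    exact mul_le_mul (h2 _ _ ((abs_le.2 ⟨hy.1.le, hy.2⟩).trans_lt hθ)) (vert hμ hR).2
      (norm_nonneg _) (by positivity)
  have h4 := hv id (fun _ => rfl) ((Real.tendsto_exp_atTop.eventually_ge_atTop _).mono
    fun _ h => Or.inl h)
  have h5 := hv Neg.neg (fun _ => neg_sq _) (((Real.tendsto_exp_neg_atTop_nhds_zero.const_mul
    2).eventually_le_const (by simpa using hμ)).mono fun _ h => Or.inr h)
  have h6 := (((hl (-θ) (by rw [abs_neg, abs_of_pos h0])).sub (hl θ (abs_of_pos h0))).add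
    (h4.const_smul I)).sub (h5.const_smul I)
  have h7 := tendsto_nhds_unique h6 (tendsto_const_nhds.congr fun R =>
    (integral_boundary_rect_eq_zero_of_differentiableOn G ⟨-R, -θ⟩ ⟨R, θ⟩ (hd R)).symm)
  simpa [sub_eq_zero] using h7

lemma psi_cl {σ μ : ℝ} (h0 : 0 < σ) (hσ : σ < π) (hμ : 0 < μ) (c : ℂ) :
    Cl σ fun z => c * rho μ μ z :=
  (rho_cl h0 hσ hμ hμ).mul (differentiableOn_const c) (fun _ _ => le_rfl) (norm_nonneg _)

lemma sray_psi {y μ s : ℝ} (hy : 0 < |y|) (hy' : |y| < π) (hμ : 0 < μ) (hs : 0 < s * Real.sin y) :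
    sray μ (fun z => 4 * μ * rho μ μ z) y = log (-(s * I)) - (log (s * I) - 2) := by
  have h0 : 0 < (|y| + π) / 2 := by linarith
  have h1 : (|y| + π) / 2 < π := by linarith
  have h2 : |y| < (|y| + π) / 2 := by linarith
  obtain ⟨M, hM⟩ := ker_bd hy hy' hμ
  obtain ⟨C, -, hC⟩ := rho_le h0 h1
  have hp : ∀ u : ℝ, cexp (u + y * I) + μ ≠ 0 := fun u =>
    left_ne_zero_of_mul (hC μ μ hμ hμ _ (ray_mem h1 u h2)).1
  have hs0 : s ≠ 0 := left_ne_zero_of_mul hs.ne'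
  have hμ' : (μ : ℂ) ≠ 0 := ofReal_ne_zero.2 hμ.ne'
  let Φ : ℂ → ℂ := fun z => log (-(s * I) * ((z - μ) / (z + μ))) - 2 * μ / (z + μ)
  let Ψ : ℂ → ℂ := fun v => log (-(s * I) * ((1 - μ * v) / (1 + μ * v))) - 2 * μ * v / (1 + μ * v)
  refine integral_of_hasDerivAt_of_tendsto (f := fun u : ℝ => Φ (cexp (u + y * I))) (fun u => ?_)
    ((psi_cl h0 h1 hμ _).sint h1 hy h2 hμ) ?_ ?_
  · have hre : -(s * I) * ((cexp (u + y * I) - μ) / (cexp (u + y * I) + μ)) ∈ slitPlane := by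
      left
      have h3 := normSq_pos.2 (hp u)
      have h4 : (cexp (u + y * I)).im = rexp u * Real.sin y := by rw [exp_im]; simp
      have : (-(s * I) * ((cexp (u + y * I) - μ) / (cexp (u + y * I) + μ))).re =
          2 * μ * rexp u * (s * Real.sin y) / normSq (cexp (u + y * I) + μ) := by
        simp only [neg_mul, neg_re, mul_re, mul_im, ofReal_re, ofReal_im, I_re, I_im, div_im,
          sub_im, sub_re, add_re, add_im, h4]
        ring
      rw [this]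
      positivity
    have h3 : HasDerivAt (fun w : ℂ => cexp (w + y * I)) (cexp (u + y * I)) u := by
      simpa using ((hasDerivAt_id (u : ℂ)).add_const (y * I)).cexp
    have h8 := h3.add_const (μ : ℂ)
    have h9 := h3.sub_const (μ : ℂ)
    have h4 := (((h9.div h8 (hp u)).const_mul (-(s * I))).clog hre).sub
      ((hasDerivAt_const (u : ℂ) (2 * μ : ℂ)).div h8 (hp u))
    refine h4.comp_ofReal.congr_deriv ?_
    have h5 := (hM u).1
    have h6 := hp u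
    have h7 : (s : ℂ) ≠ 0 := ofReal_ne_zero.2 hs0
    simp only [rho, Pi.div_apply]
    generalize cexp (u + y * I) = z at h5 h6
    field_simp
    ring
  · have h3 : ContinuousAt Φ 0 := by
      refine ContinuousAt.sub (ContinuousAt.clog (by fun_prop (disch := simp [hμ'])) ?_)
        (by fun_prop (disch := simp [hμ']))
      right
      simpa [hμ'] using hs0
    have h4 : Tendsto (fun u : ℝ => cexp (u + y * I)) atBot (𝓝 0) := by
      rw [tendsto_zero_iff_norm_tendsto_zero]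
      simpa only [norm_ray] using Real.tendsto_exp_atBot
    rw [show log (s * I) - 2 = Φ 0 by simp [Φ, hμ', neg_div]]
    exact h3.tendsto.comp h4
  · have h3 : ContinuousAt Ψ 0 := by
      refine ContinuousAt.sub (ContinuousAt.clog (by fun_prop (disch := simp)) ?_)
        (by fun_prop (disch := simp))
      right
      simpa using hs0
    have h4 : Tendsto (fun u : ℝ => (cexp (u + y * I))⁻¹) atTop (𝓝 0) := by
      rw [tendsto_zero_iff_norm_tendsto_zero]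
      simp only [norm_inv, norm_ray]
      exact Real.tendsto_exp_atTop.inv_tendsto_atTop
    convert h3.tendsto.comp h4 using 2
    · rename_i u
      have h5 := exp_ne_zero (u + y * I)
      have h6 := hp u
      have h7 : ∀ a b : ℂ, a / (cexp (u + y * I) + μ) =
          a * (cexp (u + y * I))⁻¹ / (1 + μ * (cexp (u + y * I))⁻¹) := fun a b => by
        field_simp
      simp only [Φ, Ψ, Function.comp]
      rw [h7 _ 0, h7 _ 0, sub_mul, mul_inv_cancel₀ h5]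
    · simp [Ψ]

lemma cauchy {σ θ μ : ℝ} {f : ℂ → ℂ} (h : Cl σ f) (hσ : σ < π) (h0 : 0 < θ) (hθ : θ < σ)
    (hμ : 0 < μ) : (2 * π * I)⁻¹ * (sray μ f (-θ) - sray μ f θ) = f μ := by
  have hμ' : (μ : ℂ) ≠ 0 := ofReal_ne_zero.2 hμ.ne'
  have h1 := psi_cl (h0.trans hθ) hσ hμ (4 * μ)
  have h2 := h1.mul (differentiableOn_const (f μ)) (fun _ _ => le_rfl) (norm_nonneg _)
  have h3 := sray_zero (h.sub h2) hσ h0 hθ hμ (by simp only [rho]; field_simp; ring)
  have h4 : ∀ y, |y| = θ → sray μ (fun z => f z - f μ * (4 * μ * rho μ μ z)) y =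
      sray μ f y - f μ * sray μ (fun z => 4 * μ * rho μ μ z) y := fun y hy => by
    simp only [sray, sub_mul, mul_assoc (f μ)]
    rw [integral_sub (h.sint hσ (hy ▸ h0) (hy ▸ hθ) hμ)
      ((h1.sint hσ (hy ▸ h0) (hy ▸ hθ) hμ).const_mul _), integral_const_mul]
  have h5 := Real.sin_pos_of_pos_of_lt_pi h0 (hθ.trans hσ)
  have h6 : |-θ| = θ := by rw [abs_neg, abs_of_pos h0]
  have h7 := abs_of_pos h0
  rw [h4 _ h6, h4 _ h7, sray_psi (s := -1) (h6.symm ▸ h0) (h6.symm ▸ hθ.trans hσ) hμ (by simpa),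
    sray_psi (s := 1) (h7.symm ▸ h0) (h7.symm ▸ hθ.trans hσ) hμ (by simpa)] at h3
  simp only [ofReal_neg, ofReal_one, neg_mul, one_mul, neg_neg, log_I, log_neg_I] at h3
  rw [inv_mul_eq_iff_eq_mul₀ two_pi_I_ne_zero]
  linear_combination h3

lemma fc_mult {σ θ : ℝ} {f : ℂ → ℂ} (h : Cl σ f) (hσ : σ < π) (h0 : 0 < θ) (hθ : θ < σ) :
    Mult (fc Aop θ f) fun k => f (lam k) := by
  have h1 : ∀ y, |y| = θ → Mult (ray Aop f y) fun k => sray (lam k) f y := fun y hy j x => by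
    obtain ⟨δ, hδ, h2⟩ := sep_out h0
    have h3 := fun u : ℝ => res_mult (exp_ne_zero (u + y * I)) hδ
      (h2 _ (by rw [arg_ray u (hy ▸ hθ.trans hσ), hy]))
    have h4 := ((fs j).comp (ContinuousLinearMap.apply ℂ LP x)).integral_comp_comm
      (h.int hσ (hy ▸ hθ) (g := fun u : ℝ => zR Aop (cexp (u + y * I)))
        (Continuous.smul (f := fun u : ℝ => cexp (u + y * I)) (by fun_prop) (continuous_iff_continuousAt.2 fun u =>
          ContinuousAt.comp (g := resolvent Aop)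
            (spectrum.hasDerivAt_resolvent_const_left (h3 u).1).continuousAt (by fun_prop)))
        fun u => (h3 u).2.2)
    refine h4.symm.trans ?_
    simp only [ContinuousLinearMap.comp_apply, ContinuousLinearMap.apply_apply,
      ((h3 _).2.1.smul _) j x]
    exact integral_mul_const _ _
  exact (((h1 (-θ) (by rw [abs_neg, abs_of_pos h0])).sub (h1 θ (abs_of_pos h0))).smul _).congr
    fun k => cauchy h hσ h0 hθ (lam_pos k)

end Pool.Agent.H.MP_a83649_an
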