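import Mathlib

namespace Pool.Agent.H.MP_a83649_an

open Complex MeasureTheory Real
open scoped ComplexOrder ENNReal

/-- the open sector -/
def sec (ω : ℝ) : Set ℂ := {z | z ≠ 0 ∧ |arg z| < ω}

variable {X : Type} [NormedAddCommGroup X] [NormedSpace ℂ X]

/-- `z R(z,A)` -/
noncomputable def zR (A : X →L[ℂ] X) (z : ℂ) : X →L[ℂ] X := z • resolvent A z

/-- spectrum and resolvent bounds of a sectorial operator of angle `ω` -/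
def SecAt (A : X →L[ℂ] X) (ω : ℝ) : Prop :=
  spectrum ℂ A ⊆ closure (sec ω) ∧ ∀ ε > 0, ∃ C, ∀ z ∉ closure (sec (ω + ε)), ‖zR A z‖ ≤ C

/-- the integral of `f(z) R(z,A) dz` along the ray of angle `θ`, with `z = exp (u + iθ)` -/
noncomputable def ray (A : X →L[ℂ] X) (f : ℂ → ℂ) (θ : ℝ) : X →L[ℂ] X :=
  ∫ u : ℝ, f (cexp (u + θ * I)) • zR A (cexp (u + θ * I))

/-- the contour integral over the boundary of the sector of angle `θ` -/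
noncomputable def fc (A : X →L[ℂ] X) (θ : ℝ) (f : ℂ → ℂ) : X →L[ℂ] X :=
  (2 * π * I)⁻¹ • (ray A f (-θ) - ray A f θ)

/-- the class `H₀^∞` of a sector -/
def H0 (σ : ℝ) (f : ℂ → ℂ) : Prop :=
  DifferentiableOn ℂ f (sec σ) ∧
    ∃ C ε : ℝ, 0 < ε ∧ ∀ z ∈ sec σ, ‖f z‖ ≤ C * ‖z‖ ^ ε * (1 + ‖z‖) ^ (-2 * ε)

/-- bounded `H^∞`-calculus -/
def HInf (A : X →L[ℂ] X) : Prop :=
  ∃ ω θ σ C : ℝ, 0 < ω ∧ ω < θ ∧ θ < σ ∧ σ < π ∧ SecAt A ω ∧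
    ∀ (f : ℂ → ℂ) (M : ℝ), H0 σ f → (∀ z ∈ sec σ, ‖f z‖ ≤ M) → ‖fc A θ f‖ ≤ C * M

/-- the regularizer -/
noncomputable def reg (z : ℂ) : ℂ := z / (1 + z) ^ 2

/-- `B` is the bounded operator `A^{is}` of the extended calculus -/
def IsPow (A : X →L[ℂ] X) (θ s : ℝ) (B : X →L[ℂ] X) : Prop :=
  fc A θ reg * B = fc A θ fun z => z ^ (s * I) * reg z

/-- bounded imaginary powers -/
def BIP (A : X →L[ℂ] X) : Prop :=
  ∃ ω θ : ℝ, 0 < ω ∧ ω < θ ∧ θ < π ∧ SecAt A ω ∧ ∃ (B : ℝ → X →L[ℂ] X) (C : ℝ),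
    (∀ s, IsPow A θ s (B s)) ∧ ∀ s, |s| ≤ 1 → ‖B s‖ ≤ C

/-- sum over all signs of the squared norm of the signed sum -/
noncomputable def rad {n : ℕ} (x : Fin n → X) : ℝ :=
  ∑ ε : Fin n → Bool, ‖∑ k, (if ε k then x k else -x k)‖ ^ 2

/-- R-bounded set -/
def RBdd (T : Set (X →L[ℂ] X)) : Prop :=
  ∃ C : ℝ, ∀ (n : ℕ) (t : Fin n → X →L[ℂ] X) (x : Fin n → X), (∀ k, t k ∈ T) →
    rad (fun k => t k (x k)) ≤ C ^ 2 * rad x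

/-- R-sectorial for some angle -/
def RSec (A : X →L[ℂ] X) : Prop :=
  ∃ ω, 0 < ω ∧ ω < π ∧ RBdd (zR A '' (closure (sec ω))ᶜ)

/-- positive operator, for coordinates `ev` -/
def Pos (ev : X → ℕ → ℂ) (T : X → X) : Prop := ∀ x, (∀ i, 0 ≤ ev x i) → ∀ i, 0 ≤ ev (T x) i

/-- the semigroup generated by `-A` -/
noncomputable def sg (A : X →L[ℂ] X) (t : ℝ) : X →L[ℂ] X := NormedSpace.exp ((-t : ℂ) • A)

/-- the counterexample property -/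
def Bad (ev : X → ℕ → ℂ) (A : X →L[ℂ] X) : Prop :=
  DenseRange A ∧ (∀ ω, 0 < ω → SecAt A ω) ∧ (∀ t, 0 ≤ t → Pos ev (sg A t)) ∧
    ¬ HInf A ∧ ¬ BIP A ∧ ¬ RSec A

/-- the exponent -/
noncomputable def P : ℝ≥0∞ := 5 / 4

theorem P_toReal : P.toReal = 5 / 4 := by simp [P]

instance : Fact (1 ≤ P) := ⟨by
  rw [P, ENNReal.le_div_iff_mul_le (by simp) (by simp)]
  norm_num⟩

/-- `ℓ^{5/4}` -/
abbrev LP : Type := lp (fun _ : ℕ => ℂ) P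

end Pool.Agent.H.MP_a83649_an
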